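import Mathlib

/-!
# The embolic functional of the Klein bottle: definitions

The Klein bottle is `K = ℝ² / Γ`, where `Γ` is the group of the deck transformations
`deck m n (x, y) = (x + m/2, (-1)^m y + n)`, `m n : ℤ` (it acts freely and properly
discontinuously; it is generated by the glide reflection `(x,y) ↦ (x + 1/2, -y)` and the
translation `(x,y) ↦ (x, y+1)`).  A smooth Riemannian metric on `K` is the same thing as a
`Γ`-invariant smooth Riemannian metric on `ℝ²`.
-/

open Real MeasureTheory Set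
open scoped ContDiff ENNReal

namespace KB

/-- The deck transformation `(x, y) ↦ (x + m/2, (-1)^m y + n)`. -/
noncomputable def deck (m n : ℤ) (p : ℝ × ℝ) : ℝ × ℝ :=
  (p.1 + m / 2, (-1 : ℝ) ^ m * p.2 + n)

/-- Two points of the plane are equivalent if a deck transformation maps one to the other. -/
def Equiv (p q : ℝ × ℝ) : Prop := ∃ m n : ℤ, q = deck m n p

lemma neg_one_zpow_mul_self (m : ℤ) : ((-1 : ℝ) ^ m) * ((-1 : ℝ) ^ m) = 1 := by
  rcases Int.even_or_odd m with h | h
  · rw [h.neg_one_zpow]; norm_num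
  · rw [h.neg_one_zpow]; norm_num

lemma neg_one_zpow_neg (m : ℤ) : ((-1 : ℝ) ^ (-m)) = ((-1 : ℝ) ^ m) := by
  rcases Int.even_or_odd m with h | h
  · rw [h.neg_one_zpow, h.neg.neg_one_zpow]
  · rw [h.neg_one_zpow, h.neg.neg_one_zpow]

lemma deck_zero (p : ℝ × ℝ) : deck 0 0 p = p := by
  ext <;> simp [deck]

lemma deck_deck (m n m' n' : ℤ) (p : ℝ × ℝ) :
    ∃ k : ℤ, deck m n (deck m' n' p) = deck (m + m') k p := by
  rcases Int.even_or_odd m with h | h
  · refine ⟨n' + n, ?_⟩
    have e : ((-1 : ℝ) ^ (m + m')) = (-1 : ℝ) ^ m' := by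
      rw [zpow_add₀ (by norm_num), h.neg_one_zpow, one_mul]
    ext
    · simp [deck]; ring
    · simp only [deck, e, h.neg_one_zpow]; push_cast; ring
  · refine ⟨-n' + n, ?_⟩
    have e : ((-1 : ℝ) ^ (m + m')) = -(-1 : ℝ) ^ m' := by
      rw [zpow_add₀ (by norm_num), h.neg_one_zpow]; ring
    ext
    · simp [deck]; ring
    · simp only [deck, e, h.neg_one_zpow]; push_cast; ring

lemma deck_inv (m n : ℤ) : ∃ n' : ℤ, ∀ p, deck (-m) n' (deck m n p) = p := by
  rcases Int.even_or_odd m with h | h
  · refine ⟨-n, fun p => ?_⟩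
    ext
    · simp [deck]; ring
    · simp only [deck, h.neg_one_zpow, h.neg.neg_one_zpow]; push_cast; ring
  · refine ⟨n, fun p => ?_⟩
    ext
    · simp [deck]; ring
    · simp only [deck, h.neg_one_zpow, h.neg.neg_one_zpow]; push_cast; ring

lemma equiv_equivalence : Equivalence Equiv where
  refl p := ⟨0, 0, (deck_zero p).symm⟩
  symm := by
    rintro p q ⟨m, n, rfl⟩
    obtain ⟨n', h⟩ := deck_inv m n
    exact ⟨-m, n', (h p).symm⟩
  trans := by
    rintro p q r ⟨m, n, rfl⟩ ⟨m', n', rfl⟩
    obtain ⟨k, h⟩ := deck_deck m' n' m n p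
    exact ⟨m' + m, k, h⟩

/-- The orbit equivalence relation of the deck group. -/
def kleinSetoid : Setoid (ℝ × ℝ) := ⟨Equiv, equiv_equivalence⟩

/-- The Klein bottle, as the set of orbits of the deck group. -/
def Klein : Type := Quotient kleinSetoid

/-- The point of the Klein bottle covered by a point of the plane. -/
def Klein.mk (p : ℝ × ℝ) : Klein := Quotient.mk kleinSetoid p

/-- A smooth (`C^∞`) Riemannian metric `E dx² + 2 F dx dy + G dy²` on the Klein bottle, given by
its lift to the plane: a smooth positive definite quadratic form invariant under the deck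
transformations. -/
structure RMetric where
  /-- coefficient of `dx²` -/
  E : ℝ × ℝ → ℝ
  /-- coefficient of `2 dx dy` -/
  F : ℝ × ℝ → ℝ
  /-- coefficient of `dy²` -/
  G : ℝ × ℝ → ℝ
  smooth_E : ContDiff ℝ ∞ E
  smooth_F : ContDiff ℝ ∞ F
  smooth_G : ContDiff ℝ ∞ G
  pos_E : ∀ p, 0 < E p
  pos_det : ∀ p, 0 < E p * G p - F p ^ 2
  inv_E : ∀ m n p, E (deck m n p) = E p
  inv_F : ∀ m n p, F (deck m n p) = (-1 : ℝ) ^ m * F p
  inv_G : ∀ m n p, G (deck m n p) = G p

namespace RMetric

variable (g : RMetric)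

/-- The norm of the tangent vector `v` at the point `p`. -/
noncomputable def norm (p v : ℝ × ℝ) : ℝ :=
  √(g.E p * v.1 ^ 2 + 2 * g.F p * v.1 * v.2 + g.G p * v.2 ^ 2)

/-- The length of the curve `γ` (restricted to `[0,1]`). -/
noncomputable def length (γ : ℝ → ℝ × ℝ) : ℝ :=
  ∫ t in (0 : ℝ)..1, g.norm (γ t) (deriv γ t)

/-- `γ` is a (Lipschitz) curve in the plane from `p` to `q`. -/
def IsCurve (p q : ℝ × ℝ) (γ : ℝ → ℝ × ℝ) : Prop :=
  (∃ C, LipschitzOnWith C γ (Icc 0 1)) ∧ γ 0 = p ∧ γ 1 = q

/-- The Riemannian distance of the universal covering `(ℝ², g)`: infimum of the lengths of the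
curves from `p` to `q`. -/
noncomputable def dist (p q : ℝ × ℝ) : ℝ :=
  sInf {l | ∃ γ, IsCurve p q γ ∧ l = g.length γ}

/-- The Riemannian distance of the Klein bottle `(K, g)`: infimum of the lengths of the curves
joining the two points (curves in `K` are the projections of curves in the plane). -/
noncomputable def distK (P Q : Klein) : ℝ :=
  sInf {d | ∃ p q, Klein.mk p = P ∧ Klein.mk q = Q ∧ d = g.dist p q}

/-- The area of the Klein bottle: integral of the Riemannian area density over the fundamental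
domain `[0,1/2] × [0,1]`. -/
noncomputable def area : ℝ :=
  ∫ p in (Icc (0 : ℝ) (1 / 2)) ×ˢ (Icc (0 : ℝ) 1), √(g.E p * g.G p - g.F p ^ 2)

/-- `c` is a shortest path in the Klein bottle from `P` to `Q`, parametrised by arc length: it is
an isometric embedding of the interval `[0, d(P,Q)]`. -/
def IsShortest (P Q : Klein) (c : ℝ → Klein) : Prop :=
  c 0 = P ∧ c (g.distK P Q) = Q ∧
    ∀ s ∈ Icc 0 (g.distK P Q), ∀ t ∈ Icc 0 (g.distK P Q), g.distK (c s) (c t) = |s - t|

/-- Any two points of the Klein bottle at distance less than `r` are joined by exactly one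
shortest path. -/
def UniqueShortest (r : ℝ) : Prop :=
  ∀ P Q : Klein, g.distK P Q < r →
    ∃ c, g.IsShortest P Q c ∧ ∀ c', g.IsShortest P Q c' → EqOn c' c (Icc 0 (g.distK P Q))

/-- The injectivity radius of `(K, g)`: the supremum of the `r` such that any two points at
distance less than `r` are joined by exactly one shortest path. -/
noncomputable def injRad : ℝ≥0∞ :=
  sSup {ρ | ∃ r : ℝ, 0 ≤ r ∧ g.UniqueShortest r ∧ ρ = ENNReal.ofReal r}

/-- The value `Vol(K, g) / Inj(K, g)²` of the embolic functional. -/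
noncomputable def embolic : ℝ≥0∞ :=
  ENNReal.ofReal g.area / g.injRad ^ 2

end RMetric

end KB
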