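import Pool.Agent.Helper63.KB.Defs

/-!
# Interface: conformal parametrisation of the universal covering of the Klein bottle
-/

open Real MeasureTheory Set
open scoped ContDiff ENNReal

namespace KB

/-- A conformal parametrisation `W` of the universal covering `(ℝ², g)` of the Klein bottle by the
flat plane, equivariant with respect to a standard rectangular flat Klein bottle group. -/
structure Unif (g : RMetric) where
  B : ℝ
  L : ℝ
  hB : 0 < B
  hL : 0 < L
  W : ℝ × ℝ → ℝ × ℝ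
  f : ℝ × ℝ → ℝ
  W_smooth : ContDiff ℝ 1 W
  f_smooth : ContDiff ℝ 1 f
  f_pos : ∀ q, 0 < f q
  W_B : ∀ u v, W (u + B, -v) = deck 1 0 (W (u, v))
  W_L : ∀ u v, W (u, v + L) = deck 0 1 (W (u, v))
  f_B : ∀ u v, f (u + B, -v) = f (u, v)
  f_L : ∀ u v, f (u, v + L) = f (u, v)
  conf : ∀ q ξ, g.norm (W q) (fderiv ℝ W q ξ) = f q * √(ξ.1 ^ 2 + ξ.2 ^ 2)
  area_eq : g.area = ∫ q in Icc (0 : ℝ) B ×ˢ Icc (0 : ℝ) L, f q ^ 2

end KB
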