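import Pool.Agent.Helper63.KB.Neumann

/-!
# Solution of the Beltrami equation on the torus with non vanishing `∂w`
-/

open Real MeasureTheory Set Filter
open scoped ContDiff ENNReal ComplexConjugate Topology

namespace KB

section

variable {μ : ℝ × ℝ → ℂ} (hμ : SP μ) {k : ℝ} (hk0 : 0 ≤ k) (hk : k < 1) (hb : ∀ p, ‖μ p‖ ≤ k)

/-- the constant in the solution -/
noncomputable def kap (μ : ℝ × ℝ → ℂ) (t : ℝ) : ℂ := ∑' n, ((t : ℂ) ^ (n + 1)) * mean (bT μ n)

/-- coefficients of the obstruction -/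
noncomputable def gam (μ : ℝ × ℝ → ℂ) (n : ℕ) : ℂ := mean (fun p => μ p * Sop (bU μ n) p)

/-- the obstruction -/
noncomputable def obs (μ : ℝ × ℝ → ℂ) (t : ℝ) : ℂ := ∑' n, ((t : ℂ) ^ (n + 2)) * gam μ n

include hμ hk0 hk hb

lemma bel1 {t : ℝ} (ht0 : 0 ≤ t) (ht1 : t ≤ 1) (p : ℝ × ℝ) :
    kap μ t + dzb (PS (bT μ) t) p = t * μ p * (1 + dz (PS (bT μ) t) p) := by
  have hF := bT_fam hμ hk0 hk hb
  rw [PS_dzb hF ht0 ht1, PS_dz hF ht0 ht1]
  have s1 : Summable fun n => ((t : ℂ) ^ (n + 1)) * mean (bT μ n) := by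
    refine (hF.sum 0).of_norm_bounded fun n => ?_
    rw [norm_mul]
    have h1 := norm_tpow_le ht0 ht1 n
    have h2 := norm_mean_le_N (hF.sp n).continuous
    have h3 : N (bT μ n) = A 0 (bT μ n) := rfl
    nlinarith [norm_nonneg (mean (bT μ n))]
  have s2 : Summable fun n => ((t : ℂ) ^ (n + 1)) * (bT μ n p) := by
    refine (hF.sum 2).of_norm_bounded fun n => ?_
    rw [norm_mul]
    have h1 := norm_tpow_le ht0 ht1 n
    have h2 := norm_le_A2 (hF.sp n) p
    nlinarith [norm_nonneg (bT μ n p)]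
  have s3 : Summable fun n => ((t : ℂ) ^ (n + 1)) * (bT μ n p - mean (bT μ n)) := by
    simp_rw [mul_sub]
    exact s2.sub s1
  unfold kap
  rw [← s1.tsum_add s3]
  have e1 : (fun n => (t : ℂ) ^ (n + 1) * mean (bT μ n) + (t : ℂ) ^ (n + 1) *
      (bT μ n p - mean (bT μ n))) = fun n => ((t : ℂ) ^ (n + 1)) * (bT μ n p) := by
    ext n; ring
  rw [e1, s2.tsum_eq_zero_add]
  have e2 : (fun n => (t : ℂ) ^ (n + 1 + 1) * bT μ (n + 1) p) =
      fun n => (t * μ p) * (((t : ℂ) ^ (n + 1)) * Sop (bT μ n) p) := by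
    ext n; simp only [bT]; ring
  rw [e2, tsum_mul_left]
  simp only [bT]
  ring

lemma norm_gam_le (n : ℕ) : ‖gam μ n‖ ≤ N (bU μ n) := by
  unfold gam
  have h0 := bU_sp hμ n
  refine (norm_mean_le_N (hμ.mul (Sop_sp h0)).continuous).trans ?_
  refine (N_mul_le (Sop_sp h0).continuous hμ.continuous hk0 hb).trans ?_
  have h1 := N_Sop_le h0
  have h2 := N_nonneg (Sop (bU μ n))
  have h3 := N_nonneg (bU μ n)
  nlinarith

lemma summable_gam : Summable fun n => ‖gam μ n‖ :=
  ((bU_fam hμ hk0 hk hb).sum 0).of_nonneg_of_le (fun _ => norm_nonneg _)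
    fun n => norm_gam_le hμ hk0 hk hb n

lemma bel2 {t : ℝ} (ht0 : 0 ≤ t) (ht1 : t ≤ 1) (p : ℝ × ℝ) :
    dzb (PS (bU μ) t) p = t * dz μ p + t * μ p * dz (PS (bU μ) t) p - obs μ t := by
  have hF := bU_fam hμ hk0 hk hb
  rw [PS_dzb hF ht0 ht1, PS_dz hF ht0 ht1]
  have s2 : Summable fun n => ((t : ℂ) ^ (n + 1)) * (bU μ n p) := by
    refine (hF.sum 2).of_norm_bounded fun n => ?_
    rw [norm_mul]
    have h1 := norm_tpow_le ht0 ht1 n
    have h2 := norm_le_A2 (hF.sp n) p
    nlinarith [norm_nonneg (bU μ n p)]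
  have e1 : (fun n => (t : ℂ) ^ (n + 1) * (bU μ n p - mean (bU μ n))) =
      fun n => ((t : ℂ) ^ (n + 1)) * (bU μ n p) := by
    ext n; rw [bU_mean hμ n, sub_zero]
  rw [e1, s2.tsum_eq_zero_add]
  have e2 : (fun n => (t : ℂ) ^ (n + 1 + 1) * bU μ (n + 1) p) =
      fun n => (t * μ p) * (((t : ℂ) ^ (n + 1)) * Sop (bU μ n) p) -
        ((t : ℂ) ^ (n + 2)) * gam μ n := by
    ext n; simp only [bU, gam]; ring
  have s3 : Summable fun n => (t * μ p) * (((t : ℂ) ^ (n + 1)) * Sop (bU μ n) p) :=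
    (summable_Sop hF ht0 ht1 p).mul_left _
  have s4 : Summable fun n => ((t : ℂ) ^ (n + 2)) * gam μ n := by
    refine (summable_gam hμ hk0 hk hb).of_norm_bounded fun n => ?_
    rw [norm_mul]
    have h1 := norm_tpow_le ht0 ht1 (n + 1)
    nlinarith [norm_nonneg (gam μ n)]
  rw [e2, s3.tsum_sub s4, tsum_mul_left]
  unfold obs
  simp only [bU]
  ring

omit hμ hk0 hk hb in
/-- derivative of the logarithm -/
lemma D_log {f : ℝ × ℝ → ℂ} (hf : SP f) (h : ∀ p, f p ∈ Complex.slitPlane) (v p : ℝ × ℝ) :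
    D v (fun q => Complex.log (f q)) p = D v f p / f p := by
  have h1 : HasFDerivAt f (fderiv ℝ f p) p := (hf.differentiable p).hasFDerivAt
  have h2 : HasDerivAt Complex.log (f p)⁻¹ (f p) := Complex.hasDerivAt_log (h p)
  have h3 := (h2.hasFDerivAt.restrictScalars ℝ).comp p h1
  unfold D
  have h4 : HasFDerivAt (fun q => Complex.log (f q)) _ p := h3
  rw [h4.fderiv]
  simp
  field_simp

omit hμ hk0 hk hb in
lemma dz_log {f : ℝ × ℝ → ℂ} (hf : SP f) (h : ∀ p, f p ∈ Complex.slitPlane) (p : ℝ × ℝ) :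
    dz (fun q => Complex.log (f q)) p = dz f p / f p := by
  simp only [dz, D1, D2]
  rw [D_log hf h, D_log hf h]
  ring

omit hμ hk0 hk hb in
lemma dzb_log {f : ℝ × ℝ → ℂ} (hf : SP f) (h : ∀ p, f p ∈ Complex.slitPlane) (p : ℝ × ℝ) :
    dzb (fun q => Complex.log (f q)) p = dzb f p / f p := by
  simp only [dzb, D1, D2]
  rw [D_log hf h, D_log hf h]
  ring

omit hμ hk0 hk hb in
lemma log_sp {f : ℝ × ℝ → ℂ} (hf : SP f) (h : ∀ p, f p ∈ Complex.slitPlane) :
    SP (fun q => Complex.log (f q)) := by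
  refine ⟨?_, fun p => by simp only [hf.per1], fun p => by simp only [hf.per2]⟩
  rw [contDiff_iff_contDiffAt]
  intro p
  have h1 : ContDiffAt ℂ ∞ Complex.log (f p) := Complex.contDiffAt_log (h p)
  exact (h1.restrict_scalars ℝ).comp p hf.smooth.contDiffAt

omit hμ hk0 hk hb in
lemma D_exp {f : ℝ × ℝ → ℂ} (hf : SP f) (v p : ℝ × ℝ) :
    D v (fun q => Complex.exp (f q)) p = Complex.exp (f p) * D v f p := by
  have h1 : HasFDerivAt f (fderiv ℝ f p) p := (hf.differentiable p).hasFDerivAt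
  have h2 : HasDerivAt Complex.exp (Complex.exp (f p)) (f p) := Complex.hasDerivAt_exp _
  have h3 := (h2.hasFDerivAt.restrictScalars ℝ).comp p h1
  unfold D
  have h4 : HasFDerivAt (fun q => Complex.exp (f q)) _ p := h3
  rw [h4.fderiv]
  simp
  ring

omit hμ hk0 hk hb in
lemma exp_sp {f : ℝ × ℝ → ℂ} (hf : SP f) : SP (fun q => Complex.exp (f q)) :=
  ⟨hf.smooth.cexp, fun p => by simp only [hf.per1], fun p => by simp only [hf.per2]⟩

omit hμ hb in
/-- uniqueness type lemma: if `∂̄r = ν ∂r + c` then `c = 0` and `∂r = 0`. -/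
lemma uniq {r ν : ℝ × ℝ → ℂ} (hr : SP r) (hν : SP ν) (hbν : ∀ p, ‖ν p‖ ≤ k) {c : ℂ}
    (h : ∀ p, c + dzb r p = ν p * dz r p) : c = 0 ∧ ∀ p, dz r p = 0 := by
  have h1 : N (fun p => c + dzb r p) ≤ k * N (dz r) := by
    have : (fun p => c + dzb r p) = fun p => ν p * dz r p := funext h
    rw [this]
    exact N_mul_le hr.hdz.continuous hν.continuous hk0 hbν
  have h2 := N_sq_const_add hr.hdzb.continuous (mean_dzb hr) c
  rw [← N_dz hr] at h2
  have h3 : N (fun p => c + dzb r p) ^ 2 ≤ (k * N (dz r)) ^ 2 :=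
    pow_le_pow_left₀ (N_nonneg _) h1 2
  rw [h2] at h3
  have hN := N_nonneg (dz r)
  have hc := norm_nonneg c
  have hk2 : k ^ 2 < 1 := by nlinarith
  have h4 : N (dz r) ^ 2 * (1 - k ^ 2) + ‖c‖ ^ 2 ≤ 0 := by nlinarith
  have h5 : N (dz r) ^ 2 = 0 := by nlinarith [sq_nonneg (N (dz r)), sq_nonneg ‖c‖]
  have h6 : ‖c‖ ^ 2 = 0 := by nlinarith [sq_nonneg (N (dz r)), sq_nonneg ‖c‖]
  refine ⟨by simpa using h6, ?_⟩
  exact hr.hdz.eq_zero_of_N (by simpa using h5)

/-- the obstruction vanishes for small `t` -/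
lemma obs_zero : ∃ δ > 0, ∀ t, 0 < t → t < δ → obs μ t = 0 := by
  have hF := bT_fam hμ hk0 hk hb
  set C := ∑' n, A 2 (bT μ n) with hC
  have hC0 : 0 ≤ C := tsum_nonneg fun n => A_nonneg _ _
  refine ⟨min 1 (1 / (2 * (C + 1))), lt_min one_pos (by positivity), fun t ht0 htδ => ?_⟩
  have ht1 : t ≤ 1 := (htδ.trans_le (min_le_left _ _)).le
  have htC : t * C ≤ 1 / 2 := by
    have h1 : t < 1 / (2 * (C + 1)) := htδ.trans_le (min_le_right _ _)
    have h2 : t * (2 * (C + 1)) < 1 := by rwa [lt_div_iff₀ (by positivity)] at h1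
    nlinarith
  -- the solution
  set Φ := PS (bT μ) t with hΦ
  have hΦsp : SP Φ := PS_sp hF ht0.le ht1
  have hPsp : SP (fun p => 1 + dz Φ p) := (SP.const 1).add hΦsp.hdz
  have hslit : ∀ p, (fun p => 1 + dz Φ p) p ∈ Complex.slitPlane := by
    intro p
    have h1 := norm_PS_dz_le hF ht0.le ht1 p
    have h2 : ‖dz Φ p‖ ≤ 1 / 2 := h1.trans htC
    left
    have h3 := (Complex.abs_re_le_norm (dz Φ p)).trans h2
    have h4 := neg_abs_le (dz Φ p).re
    simp only [Complex.add_re, Complex.one_re]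
    linarith
  set lam := fun p => Complex.log (1 + dz Φ p) with hlam
  have hlsp : SP lam := log_sp hPsp hslit
  have hne : ∀ p, 1 + dz Φ p ≠ 0 := fun p => Complex.slitPlane_ne_zero (hslit p)
  -- ∂̄ p = ∂ (tμ p)
  have hbel := bel1 hμ hk0 hk hb ht0.le ht1
  have e1 : dzb (fun p => 1 + dz Φ p) = dz (fun p => (t * μ p) * (1 + dz Φ p)) := by
    have : (fun p => (t * μ p) * (1 + dz Φ p)) = fun p => kap μ t + dzb Φ p := by
      ext p; rw [hbel p]
    rw [this, dz_add (SP.const _) hΦsp.hdzb, dzb_add (SP.const _) hΦsp.hdz, dz_const, dzb_const,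
      dz_dzb hΦsp]
  have htμ : SP (fun p => t * μ p) := hμ.const_mul _
  rw [dz_mul htμ hPsp, dz_const_mul hμ] at e1
  have e2 : ∀ p, dzb lam p = dzb (fun p => 1 + dz Φ p) p / (1 + dz Φ p) :=
    fun p => dzb_log hPsp hslit p
  have e3 : ∀ p, dz lam p = dz (fun p => 1 + dz Φ p) p / (1 + dz Φ p) :=
    fun p => dz_log hPsp hslit p
  have e4 : ∀ p, dzb lam p = t * dz μ p + t * μ p * dz lam p := by
    intro p
    have hp := hne p
    rw [e2, e3, e1]
    field_simp
  have hU := bU_fam hμ hk0 hk hb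
  have hΛsp : SP (PS (bU μ) t) := PS_sp hU ht0.le ht1
  have e5 := bel2 hμ hk0 hk hb ht0.le ht1
  have hr : SP (fun p => lam p - PS (bU μ) t p) := hlsp.sub hΛsp
  have h6 : ∀ p, (-obs μ t) + dzb (fun p => lam p - PS (bU μ) t p) p =
      (t * μ p) * dz (fun p => lam p - PS (bU μ) t p) p := by
    intro p
    rw [dzb_sub hlsp hΛsp, dz_sub hlsp hΛsp]
    simp only
    rw [e4, e5]
    ring
  have h7 := (uniq hk0 hk hr htμ (fun p => by
    rw [norm_mul, Complex.norm_real, Real.norm_of_nonneg ht0.le]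
    have := hb p
    have := norm_nonneg (μ p)
    nlinarith) h6).1
  simpa using h7

lemma gam_zero (m : ℕ) : gam μ m = 0 := by
  obtain ⟨δ, hδ, hobs⟩ := obs_zero hμ hk0 hk hb
  induction m using Nat.strong_induction_on with
  | _ m ih =>
    have hs := summable_gam hμ hk0 hk hb
    set S := ∑' n, ‖gam μ n‖ with hS
    have key : ∀ t, 0 < t → t < min δ 1 → ‖gam μ m‖ ≤ t * S := by
      intro t ht0 ht
      have ht1 : t ≤ 1 := (ht.trans_le (min_le_right _ _)).le
      have h0 := hobs t ht0 (ht.trans_le (min_le_left _ _))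
      unfold obs at h0
      have s4 : Summable fun n => ((t : ℂ) ^ (n + 2)) * gam μ n := by
        refine hs.of_norm_bounded fun n => ?_
        rw [norm_mul]
        have h1 := norm_tpow_le ht0.le ht1 (n + 1)
        nlinarith [norm_nonneg (gam μ n)]
      rw [← s4.sum_add_tsum_nat_add m] at h0
      have h1 : ∑ i ∈ Finset.range m, (t : ℂ) ^ (i + 2) * gam μ i = 0 :=
        Finset.sum_eq_zero fun i hi => by rw [ih i (Finset.mem_range.1 hi), mul_zero]
      rw [h1, zero_add] at h0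
      have e1 : (fun n => (t : ℂ) ^ (n + m + 2) * gam μ (n + m)) =
          fun n => (t : ℂ) ^ (m + 2) * ((t : ℂ) ^ n * gam μ (n + m)) := by
        ext n; ring
      rw [e1, tsum_mul_left] at h0
      have htne : (t : ℂ) ^ (m + 2) ≠ 0 := pow_ne_zero _ (by exact_mod_cast ht0.ne')
      have h2 : ∑' n, (t : ℂ) ^ n * gam μ (n + m) = 0 := by
        rcases mul_eq_zero.1 h0 with h | h
        · exact absurd h htne
        · exact h
      have hs' : Summable fun n => ‖gam μ (n + m)‖ := (summable_nat_add_iff m).2 hs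
      have hpow : ∀ n : ℕ, ‖(t : ℂ) ^ n‖ ≤ 1 := fun n => by
        rw [norm_pow, Complex.norm_real, Real.norm_of_nonneg ht0.le]
        exact pow_le_one₀ ht0.le ht1
      have s5 : Summable fun n => (t : ℂ) ^ n * gam μ (n + m) := by
        refine hs'.of_norm_bounded fun n => ?_
        rw [norm_mul]
        nlinarith [norm_nonneg (gam μ (n + m)), hpow n]
      rw [s5.tsum_eq_zero_add] at h2
      simp only [pow_zero, zero_add, one_mul] at h2
      have h3 : gam μ m = - ∑' n, (t : ℂ) ^ (n + 1) * gam μ (n + 1 + m) := by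
        linear_combination h2
      rw [h3, norm_neg]
      have hs'' : Summable fun n => ‖gam μ (n + 1 + m)‖ := by
        have := (summable_nat_add_iff (1 + m)).2 hs
        simpa only [add_assoc] using this
      have h4 : ‖∑' n, (t : ℂ) ^ (n + 1) * gam μ (n + 1 + m)‖ ≤ t * ∑' n, ‖gam μ (n + 1 + m)‖ := by
        refine tsum_of_norm_bounded (hs''.hasSum.mul_left t) fun n => ?_
        rw [norm_mul, pow_succ, norm_mul]
        have h3 : ‖(t : ℂ)‖ = t := by rw [Complex.norm_real, Real.norm_of_nonneg ht0.le]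
        rw [h3]
        calc ‖(t : ℂ) ^ n‖ * t * ‖gam μ (n + 1 + m)‖ ≤ 1 * t * ‖gam μ (n + 1 + m)‖ := by
              gcongr
              exact hpow n
          _ = _ := by ring
      refine h4.trans (mul_le_mul_of_nonneg_left ?_ ht0.le)
      have h5 := hs.sum_add_tsum_nat_add (1 + m)
      have h6 : 0 ≤ ∑ i ∈ Finset.range (1 + m), ‖gam μ i‖ :=
        Finset.sum_nonneg fun i _ => norm_nonneg _
      have h7 : (fun n => ‖gam μ (n + 1 + m)‖) = fun n => ‖gam μ (n + (1 + m))‖ := by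
        ext n; rw [add_assoc]
      rw [h7]
      linarith
    have hlim : Tendsto (fun t : ℝ => t * S) (𝓝[>] 0) (𝓝 0) := by
      have : Tendsto (fun t : ℝ => t * S) (𝓝 0) (𝓝 (0 * S)) :=
        (continuous_id.mul continuous_const).tendsto 0
      rw [zero_mul] at this
      exact this.mono_left nhdsWithin_le_nhds
    have hle : ‖gam μ m‖ ≤ 0 := by
      refine ge_of_tendsto hlim ?_
      filter_upwards [Ioo_mem_nhdsGT (lt_min hδ one_pos)] with t ht
      exact key t ht.1 ht.2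
    simpa using hle

/-- **Solution of the Beltrami equation on the torus.** There are `κ`, `Φ` with
`κ + ∂̄Φ = μ (1 + ∂Φ)` and `1 + ∂Φ` never zero. -/
theorem beltrami : ∃ (κ : ℂ) (Φ : ℝ × ℝ → ℂ), SP Φ ∧
    (∀ p, κ + dzb Φ p = μ p * (1 + dz Φ p)) ∧ (∀ p, 1 + dz Φ p ≠ 0) := by
  have hU := bU_fam hμ hk0 hk hb
  set L := PS (bU μ) 1 with hL
  have hLsp : SP L := PS_sp hU zero_le_one le_rfl
  have hobs : obs μ 1 = 0 := by
    unfold obs
    simp only [gam_zero hμ hk0 hk hb, mul_zero, tsum_zero]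
  have e1 : ∀ p, dzb L p = dz μ p + μ p * dz L p := by
    intro p
    have := bel2 hμ hk0 hk hb zero_le_one le_rfl p
    rw [hobs] at this
    simpa using this
  set ψ := fun p => Complex.exp (L p) with hψ
  have hψsp : SP ψ := exp_sp hLsp
  have hμψ : SP (fun p => μ p * ψ p) := hμ.mul hψsp
  have e2 : ∀ p, dzb ψ p = ψ p * dzb L p := by
    intro p
    simp only [dzb]
    rw [D1, D2, hψ, D_exp hLsp, D_exp hLsp]
    simp only [D1, D2]
    ring
  have e3 : ∀ p, dz ψ p = ψ p * dz L p := by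
    intro p
    simp only [dz]
    rw [D1, D2, hψ, D_exp hLsp, D_exp hLsp]
    simp only [D1, D2]
    ring
  -- ∂̄ψ = ∂(μψ)
  have e4 : ∀ p, dzb ψ p = dz (fun p => μ p * ψ p) p := by
    intro p
    rw [dz_mul hμ hψsp]
    simp only
    rw [e2, e3, e1]
    ring
  set F := Sol (fun p => μ p * ψ p) with hF
  have hFsp : SP F := Sol_sp hμψ
  have e5 : dzb F = fun p => μ p * ψ p - mean (fun p => μ p * ψ p) := dzb_Sol hμψ
  set m := mean (fun p => μ p * ψ p) with hm
  have e6 : ∀ p, dzb (fun p => ψ p - dz F p) p = 0 := by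
    intro p
    rw [dzb_sub hψsp hFsp.hdz, ← dz_dzb hFsp, e5, dz_sub hμψ (SP.const _), dz_const]
    simp only
    rw [e4]
    ring
  have e7 := (hψsp.sub hFsp.hdz).const_of_dzb e6
  set a := ψ 0 - dz F 0 with ha
  have e8 : ∀ p, ψ p = a + dz F p := by
    intro p
    have := e7 p
    linear_combination this
  have hψ0 : ∀ p, ψ p ≠ 0 := fun p => Complex.exp_ne_zero _
  have hane : a ≠ 0 := by
    intro h0
    have h1 : ∀ p, m + dzb F p = μ p * dz F p := by
      intro p
      rw [e5]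
      simp only
      have := e8 p
      rw [h0, zero_add] at this
      rw [this]
      ring
    have h2 := (uniq hk0 hk hFsp hμ hb h1).2
    apply hψ0 0
    rw [e8, h0, h2, zero_add]
  refine ⟨m / a, fun p => a⁻¹ * F p, hFsp.const_mul _, fun p => ?_, fun p => ?_⟩
  · rw [dzb_const_mul hFsp, dz_const_mul hFsp, e5]
    simp only
    rw [e8]
    field_simp
    ring
  · rw [dz_const_mul hFsp]
    simp only
    have h1 := hψ0 p
    rw [e8] at h1
    intro h2
    apply h1
    have : a * (1 + a⁻¹ * dz F p) = a + dz F p := by field_simp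
    rw [← this, h2, mul_zero]

end

end KB
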