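import Mathlib

/-!
# A global inverse function theorem in the plane (from the theory of covering maps)
-/

open Set Filter Topology

namespace KB

theorem isLocalHomeomorph_of_deriv {T : ℝ × ℝ → ℝ × ℝ} (hT : ContDiff ℝ 1 T)
    (hd : ∀ p, ∃ e : (ℝ × ℝ) ≃L[ℝ] (ℝ × ℝ), fderiv ℝ T p = (e : ℝ × ℝ →L[ℝ] ℝ × ℝ)) :
    IsLocalHomeomorph T := by
  refine IsLocalHomeomorph.mk T fun p => ?_
  obtain ⟨e, he⟩ := hd p
  have h1 : HasStrictFDerivAt T (e : ℝ × ℝ →L[ℝ] ℝ × ℝ) p := by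
    rw [← he]
    exact (hT.contDiffAt).hasStrictFDerivAt (by simp)
  exact ⟨h1.toOpenPartialHomeomorph T, h1.mem_toOpenPartialHomeomorph_source, fun x _ => rfl⟩

theorem bijective_of_proper_local {T : ℝ × ℝ → ℝ × ℝ} (hT : ContDiff ℝ 1 T)
    (hd : ∀ p, ∃ e : (ℝ × ℝ) ≃L[ℝ] (ℝ × ℝ), fderiv ℝ T p = (e : ℝ × ℝ →L[ℝ] ℝ × ℝ))
    (hprop : ∀ R : ℝ, ∃ R' : ℝ, ∀ p, ‖T p‖ ≤ R → ‖p‖ ≤ R') : Function.Bijective T := by
  have hloc := isLocalHomeomorph_of_deriv hT hd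
  have hproper : IsProperMap T := by
    rw [isProperMap_iff_isCompact_preimage]
    refine ⟨hT.continuous, fun K hK => ?_⟩
    obtain ⟨R, hR⟩ := hK.isBounded.exists_norm_le
    obtain ⟨R', hR'⟩ := hprop R
    refine Metric.isCompact_of_isClosed_isBounded (hK.isClosed.preimage hT.continuous) ?_
    exact (Metric.isBounded_closedBall (x := (0 : ℝ × ℝ)) (r := R')).subset fun p hp => by
      rw [mem_closedBall_zero_iff]
      exact hR' p (hR _ hp)
  have hfin : ∀ x ∈ (univ : Set (ℝ × ℝ)), (T ⁻¹' {x}).Finite := by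
    intro x _
    refine (hproper.isCompact_preimage isCompact_singleton).finite
      (.of_openPartialHomeomorph T subset_rfl fun e _ => ?_)
    obtain ⟨φ, hφ, h⟩ := hloc e
    exact ⟨φ, hφ, h.symm⟩
  have hcov : IsCoveringMap T := by
    rw [isCoveringMap_iff_isCoveringMapOn_univ]
    refine hproper.isClosedMap.isCoveringMapOn_of_isLocalHomeomorphOn hfin ?_
    rw [preimage_univ, ← isLocalHomeomorph_iff_isLocalHomeomorphOn_univ]
    exact hloc
  -- a section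
  obtain ⟨F, ⟨hF0, hF⟩, -⟩ := hcov.existsUnique_continuousMap_lifts
    (ContinuousMap.id (ℝ × ℝ)) (T 0) 0 rfl
  have hF' : ∀ q, T (F q) = q := fun q => congrFun hF q
  refine ⟨?_, fun q => ⟨F q, hF' q⟩⟩
  obtain ⟨G, -, hG⟩ := hcov.existsUnique_continuousMap_lifts
    (⟨T, hT.continuous⟩ : C(ℝ × ℝ, ℝ × ℝ)) 0 0 rfl
  have h1 := hG (ContinuousMap.id (ℝ × ℝ)) ⟨rfl, rfl⟩
  have h2 := hG (F.comp ⟨T, hT.continuous⟩) ⟨hF0, by
    ext1 p
    exact hF' (T p)⟩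
  have h3 : ∀ p, F (T p) = p := by
    intro p
    have : (F.comp ⟨T, hT.continuous⟩) p = (ContinuousMap.id (ℝ × ℝ)) p := by rw [h2, ← h1]
    exact this
  intro p q h
  rw [← h3 p, ← h3 q, h]

end KB
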