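import Pool.Agent.Helper63.KB.SP

/-!
# The operators `∂` and `∂̄` on smooth doubly periodic functions
-/

open Real MeasureTheory Set
open scoped ContDiff ENNReal ComplexConjugate

namespace KB

/-- `∂/∂z` -/
noncomputable def dz (f : ℝ × ℝ → ℂ) : ℝ × ℝ → ℂ :=
  fun p => (1 / 2) * (D1 f p - Complex.I * D2 f p)

/-- `∂/∂z̄` -/
noncomputable def dzb (f : ℝ × ℝ → ℂ) : ℝ × ℝ → ℂ :=
  fun p => (1 / 2) * (D1 f p + Complex.I * D2 f p)

variable {f g : ℝ × ℝ → ℂ}

lemma SP.hdz (hf : SP f) : SP (dz f) :=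
  ((hf.hD _).sub ((hf.hD _).const_mul _)).const_mul _

lemma SP.hdzb (hf : SP f) : SP (dzb f) :=
  ((hf.hD _).add ((hf.hD _).const_mul _)).const_mul _

lemma dz_add (hf : SP f) (hg : SP g) :
    dz (fun p => f p + g p) = fun p => dz f p + dz g p := by
  ext p
  simp only [dz, D1, D2]
  rw [D_add _ hf hg, D_add _ hf hg]
  ring

lemma dz_sub (hf : SP f) (hg : SP g) :
    dz (fun p => f p - g p) = fun p => dz f p - dz g p := by
  ext p
  simp only [dz, D1, D2]
  rw [D_sub _ hf hg, D_sub _ hf hg]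
  ring

lemma dz_mul (hf : SP f) (hg : SP g) :
    dz (fun p => f p * g p) = fun p => dz f p * g p + f p * dz g p := by
  ext p
  simp only [dz, D1, D2]
  rw [D_mul _ hf hg, D_mul _ hf hg]
  ring

lemma dz_const (c : ℂ) : dz (fun _ => c) = fun _ => 0 := by
  ext p
  simp only [dz, D1, D2]
  rw [D_const, D_const]
  simp

lemma dz_const_mul (hf : SP f) (c : ℂ) : dz (fun p => c * f p) = fun p => c * dz f p := by
  rw [dz_mul (SP.const c) hf, dz_const]
  ext p; simp

lemma dzb_add (hf : SP f) (hg : SP g) :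
    dzb (fun p => f p + g p) = fun p => dzb f p + dzb g p := by
  ext p
  simp only [dzb, D1, D2]
  rw [D_add _ hf hg, D_add _ hf hg]
  ring

lemma dzb_sub (hf : SP f) (hg : SP g) :
    dzb (fun p => f p - g p) = fun p => dzb f p - dzb g p := by
  ext p
  simp only [dzb, D1, D2]
  rw [D_sub _ hf hg, D_sub _ hf hg]
  ring

lemma dzb_mul (hf : SP f) (hg : SP g) :
    dzb (fun p => f p * g p) = fun p => dzb f p * g p + f p * dzb g p := by
  ext p
  simp only [dzb, D1, D2]
  rw [D_mul _ hf hg, D_mul _ hf hg]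
  ring

lemma dzb_const (c : ℂ) : dzb (fun _ => c) = fun _ => 0 := by
  ext p
  simp only [dzb, D1, D2]
  rw [D_const, D_const]
  simp

lemma dzb_const_mul (hf : SP f) (c : ℂ) : dzb (fun p => c * f p) = fun p => c * dzb f p := by
  rw [dzb_mul (SP.const c) hf, dzb_const]
  ext p; simp

lemma D_dz (v : ℝ × ℝ) (hf : SP f) : D v (dz f) = dz (D v f) := by
  have h1 : dz f = fun p => (1 / 2) * (D1 f p - Complex.I * D2 f p) := rfl
  rw [h1, D_const_mul v ((hf.hD _).sub ((hf.hD _).const_mul _)),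
    D_sub v (hf.hD _) ((hf.hD _).const_mul _), D_const_mul v (hf.hD _)]
  ext p
  simp only [dz, D1, D2]
  rw [D_comm v _ hf, D_comm v _ hf]

lemma D_dzb (v : ℝ × ℝ) (hf : SP f) : D v (dzb f) = dzb (D v f) := by
  have h1 : dzb f = fun p => (1 / 2) * (D1 f p + Complex.I * D2 f p) := rfl
  rw [h1, D_const_mul v ((hf.hD _).add ((hf.hD _).const_mul _)),
    D_add v (hf.hD _) ((hf.hD _).const_mul _), D_const_mul v (hf.hD _)]
  ext p
  simp only [dzb, D1, D2]
  rw [D_comm v _ hf, D_comm v _ hf]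

lemma dz_dzb (hf : SP f) : dz (dzb f) = dzb (dz f) := by
  ext p
  have e1 : ∀ v, D v (dzb f) p = dzb (D v f) p := fun v => congrFun (D_dzb v hf) p
  have e2 : ∀ v, D v (dz f) p = dz (D v f) p := fun v => congrFun (D_dz v hf) p
  change (1 / 2) * (D1 (dzb f) p - Complex.I * D2 (dzb f) p) =
    (1 / 2) * (D1 (dz f) p + Complex.I * D2 (dz f) p)
  rw [D1, D2, e1, e1, D1, D2, e2, e2]
  simp only [dz, dzb, D1, D2]
  rw [D_comm (1, 0) (0, 1) hf]
  ring

lemma mean_dz (hf : SP f) : mean (dz f) = 0 := by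
  have h : mean (dz f) = (1 / 2) * (mean (D1 f) - Complex.I * mean (D2 f)) := by
    unfold dz
    rw [mean_const_mul, mean_sub (hf.hD _).continuous ((hf.hD _).const_mul _).continuous,
      mean_const_mul]
  rw [h, mean_D1 hf, mean_D2 hf]
  simp

lemma mean_dzb (hf : SP f) : mean (dzb f) = 0 := by
  have h : mean (dzb f) = (1 / 2) * (mean (D1 f) + Complex.I * mean (D2 f)) := by
    unfold dzb
    rw [mean_const_mul, mean_add (hf.hD _).continuous ((hf.hD _).const_mul _).continuous,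
      mean_const_mul]
  rw [h, mean_D1 hf, mean_D2 hf]
  simp

/-- `‖∂f‖ = ‖∂̄f‖` -/
lemma N_dz (hf : SP f) : N (dz f) = N (dzb f) := by
  have h : N (dz f) ^ 2 = N (dzb f) ^ 2 := by
    rw [N_sq hf.hdz.continuous, N_sq hf.hdzb.continuous]
    -- the difference is an exact derivative
    have key : ∀ p, ((‖dz f p‖ ^ 2 - ‖dzb f p‖ ^ 2 : ℝ) : ℂ) =
        (Complex.I / 2) * (D1 (fun q => f q * conj (D2 f q)) p
          - D2 (fun q => f q * conj (D1 f q)) p) := by
      intro p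
      rw [D1, D_mul _ hf (hf.hD _).star', D2, D_mul _ hf (hf.hD _).star',
        D_conj _ (hf.hD _), D_conj _ (hf.hD _), D_comm (1, 0) (0, 1) hf]
      push_cast
      rw [← Complex.mul_conj', ← Complex.mul_conj']
      simp only [dz, dzb, map_mul, map_sub, map_add, map_div₀, map_one, map_ofNat, Complex.conj_I]
      ring
    have hI : ∫ p, ((‖dz f p‖ ^ 2 - ‖dzb f p‖ ^ 2 : ℝ) : ℂ) ∂μQ = 0 := by
      simp_rw [key]
      have e : (∫ p, (Complex.I / 2) * (D1 (fun q => f q * conj (D2 f q)) p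
          - D2 (fun q => f q * conj (D1 f q)) p) ∂μQ) = (Complex.I / 2) *
          (mean (D1 (fun q => f q * conj (D2 f q))) - mean (D2 (fun q => f q * conj (D1 f q)))) := by
        rw [integral_const_mul]
        congr 1
        exact mean_sub ((hf.mul (hf.hD _).star').hD _).continuous
          ((hf.mul (hf.hD _).star').hD _).continuous
      rw [e, mean_D1 (hf.mul (hf.hD _).star'), mean_D2 (hf.mul (hf.hD _).star')]
      simp
    have hI2 : ∫ p, (‖dz f p‖ ^ 2 - ‖dzb f p‖ ^ 2 : ℝ) ∂μQ = 0 := by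
      rw [integral_complex_ofReal] at hI
      exact_mod_cast hI
    have c1 : Continuous (dz f) := hf.hdz.continuous
    have c2 : Continuous (dzb f) := hf.hdzb.continuous
    rw [integral_sub (integrable_of_continuous (by fun_prop))
      (integrable_of_continuous (by fun_prop))] at hI2
    linarith
  exact (sq_eq_sq₀ (N_nonneg _) (N_nonneg _)).1 h

/-! ### Periodicity -/

lemma SP.per_int (hf : SP f) (m n : ℤ) (p : ℝ × ℝ) : f (p + ((m : ℝ), (n : ℝ))) = f p := by
  have h1 : Function.Periodic f ((1 : ℝ), (0 : ℝ)) := hf.per1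
  have h2 : Function.Periodic f ((0 : ℝ), (1 : ℝ)) := hf.per2
  have h3 := (h1.zsmul m) p
  have h4 := (h2.zsmul n) (p + m • ((1 : ℝ), (0 : ℝ)))
  rw [← h3, ← h4]
  congr 1
  rw [add_assoc]
  congr 1
  ext <;> simp

lemma SP.exists_mem_unit (hf : SP f) (p : ℝ × ℝ) :
    ∃ q ∈ Icc (0 : ℝ) 1 ×ˢ Icc (0 : ℝ) 1, f p = f q := by
  refine ⟨(Int.fract p.1, Int.fract p.2), ⟨⟨Int.fract_nonneg _, (Int.fract_lt_one _).le⟩,
    ⟨Int.fract_nonneg _, (Int.fract_lt_one _).le⟩⟩, ?_⟩
  have := hf.per_int ⌊p.1⌋ ⌊p.2⌋ (Int.fract p.1, Int.fract p.2)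
  rw [← this]
  congr 1
  ext <;> simp [Int.fract_add_floor]

lemma SP.bounded (hf : SP f) : ∃ M, 0 ≤ M ∧ ∀ p, ‖f p‖ ≤ M := by
  obtain ⟨M, hM⟩ := (isCompact_Icc.prod isCompact_Icc :
    IsCompact (Icc (0 : ℝ) 1 ×ˢ Icc (0 : ℝ) 1)).exists_bound_of_continuousOn
      hf.continuous.continuousOn
  have h : ∀ p, ‖f p‖ ≤ M := by
    intro p
    obtain ⟨q, hq, e⟩ := hf.exists_mem_unit p
    rw [e]
    exact hM q hq
  exact ⟨M, (norm_nonneg _).trans (h 0), h⟩

/-- a smooth periodic function with vanishing `L²` norm vanishes -/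
lemma SP.eq_zero_of_N (hf : SP f) (h : N f = 0) (p : ℝ × ℝ) : f p = 0 := by
  have h1 : ∫ p, ‖f p‖ ^ 2 ∂μQ = 0 := by rw [← N_sq hf.continuous, h]; norm_num
  have hc := hf.continuous
  rw [integral_eq_zero_iff_of_nonneg (fun p => by positivity)
    (integrable_of_continuous (by fun_prop))] at h1
  rw [μQ_eq] at h1
  have h2 : f =ᵐ[volume.restrict (Ioo (0 : ℝ) 1 ×ˢ Ioo (0 : ℝ) 1)] (fun _ => (0 : ℂ)) := by
    have : (fun p => ‖f p‖ ^ 2) =ᵐ[volume.restrict (Ioo (0 : ℝ) 1 ×ˢ Ioo (0 : ℝ) 1)] 0 :=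
      ae_restrict_of_ae_restrict_of_subset (prod_mono Ioo_subset_Ioc_self Ioo_subset_Ioc_self) h1
    filter_upwards [this] with x hx
    simpa using hx
  have h3 : EqOn f (fun _ => 0) (Ioo (0 : ℝ) 1 ×ˢ Ioo (0 : ℝ) 1) :=
    Measure.eqOn_open_of_ae_eq h2 (isOpen_Ioo.prod isOpen_Ioo) hf.continuous.continuousOn
      continuousOn_const
  have h4 : EqOn f (fun _ => 0) (closure (Ioo (0 : ℝ) 1 ×ˢ Ioo (0 : ℝ) 1)) :=
    h3.closure hf.continuous continuous_const
  rw [closure_prod_eq, closure_Ioo (by norm_num)] at h4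
  obtain ⟨q, hq, e⟩ := hf.exists_mem_unit p
  rw [e]
  exact h4 hq

/-- Liouville: a smooth periodic function with `∂̄ f = 0` is constant. -/
lemma SP.const_of_dzb (hf : SP f) (h : ∀ p, dzb f p = 0) (p : ℝ × ℝ) : f p = f 0 := by
  have h0 : N (dzb f) = 0 := by
    have : dzb f = fun _ => 0 := funext h
    rw [this, N_const]; simp
  have h1 : ∀ p, dz f p = 0 := hf.hdz.eq_zero_of_N ((N_dz hf).trans h0)
  have hD1 : ∀ p, D1 f p = 0 := by
    intro p
    have e1 := h p
    have e2 := h1 p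
    simp only [dz, dzb] at e1 e2
    linear_combination e1 + e2
  have hD2 : ∀ p, D2 f p = 0 := by
    intro p
    have e1 := h p
    have e2 := h1 p
    simp only [dz, dzb] at e1 e2
    linear_combination (-Complex.I) * e1 + Complex.I * e2 + (D2 f p) * Complex.I_sq
  have hd : ∀ p, fderiv ℝ f p = 0 := by
    intro p
    ext
    · exact hD1 p
    · exact hD2 p
  exact is_const_of_fderiv_eq_zero hf.differentiable hd p 0

/-! ### A Sobolev inequality -/

lemma sobolev_1d {u u' : ℝ → ℂ} (hu : ∀ x, HasDerivAt u (u' x) x) (hc : Continuous u')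
    {x : ℝ} (hx : x ∈ Icc (0 : ℝ) 1) :
    ‖u x‖ ≤ (∫ s in (0 : ℝ)..1, ‖u s‖) + ∫ s in (0 : ℝ)..1, ‖u' s‖ := by
  have hcu : Continuous u := continuous_iff_continuousAt.2 fun x => (hu x).continuousAt
  have h1 : ∀ s ∈ Icc (0 : ℝ) 1, ‖u x‖ ≤ ‖u s‖ + ∫ s in (0 : ℝ)..1, ‖u' s‖ := by
    intro s hs
    have e : u x - u s = ∫ t in s..x, u' t :=
      (intervalIntegral.integral_eq_sub_of_hasDerivAt (fun t _ => hu t)
        (hc.intervalIntegrable _ _)).symm
    have b : ‖u x - u s‖ ≤ ∫ s in (0 : ℝ)..1, ‖u' s‖ := by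
      rw [e]
      have h2 : ‖∫ t in s..x, u' t‖ ≤ |∫ t in s..x, ‖u' t‖| :=
        intervalIntegral.norm_integral_le_abs_integral_norm
      refine h2.trans ?_
      have h3 : |∫ t in s..x, ‖u' t‖| ≤ |∫ t in (0 : ℝ)..1, ‖u' t‖| := by
        apply intervalIntegral.abs_integral_mono_interval
        · rw [uIoc_of_le (zero_le_one' ℝ)]
          intro t ht
          rw [uIoc, mem_Ioc] at ht
          constructor
          · exact lt_of_le_of_lt (le_min hs.1 hx.1) ht.1
          · exact ht.2.trans (max_le hs.2 hx.2)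
        · exact Filter.Eventually.of_forall fun t => norm_nonneg _
        · exact hc.norm.intervalIntegrable _ _
      have h4 : |∫ t in (0 : ℝ)..1, ‖u' t‖| = ∫ t in (0 : ℝ)..1, ‖u' t‖ :=
        abs_of_nonneg (intervalIntegral.integral_nonneg (by norm_num) fun t _ => norm_nonneg _)
      exact h3.trans_eq h4
    calc ‖u x‖ = ‖u s + (u x - u s)‖ := by congr 1; ring
      _ ≤ ‖u s‖ + ‖u x - u s‖ := norm_add_le _ _
      _ ≤ _ := by linarith
  have h2 : ∫ s in (0 : ℝ)..1, ‖u x‖ ≤ ∫ s in (0 : ℝ)..1, (‖u s‖ + ∫ s in (0 : ℝ)..1, ‖u' s‖) :=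
    intervalIntegral.integral_mono_on (by norm_num) (by simp)
      ((hcu.norm.add continuous_const).intervalIntegrable _ _) h1
  rw [intervalIntegral.integral_add (hcu.norm.intervalIntegrable _ _) (by simp)] at h2
  simpa using h2

lemma sobolev (hf : SP f) (p : ℝ × ℝ) :
    ‖f p‖ ≤ N f + N (D2 f) + (N (D1 f) + N (D2 (D1 f))) := by
  obtain ⟨⟨x, y⟩, ⟨hx, hy⟩, e⟩ := hf.exists_mem_unit p
  rw [e]
  simp only at hx hy
  have key : ∀ g : ℝ × ℝ → ℂ, SP g → ∫ s in (0 : ℝ)..1, ‖g (s, y)‖ ≤ N g + N (D2 g) := by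
    intro g hg
    have c1 := hg.continuous
    have c2 := (hg.hD (0, 1)).continuous
    have b : ∀ s, ‖g (s, y)‖ ≤ (∫ t in (0 : ℝ)..1, ‖g (s, t)‖) + ∫ t in (0 : ℝ)..1, ‖D2 g (s, t)‖ :=
      fun s => sobolev_1d (u := fun t => g (s, t)) (u' := fun t => D2 g (s, t))
        (fun t => hasDerivAt_y hg s t) (by fun_prop) hy
    have i1 : Continuous fun s : ℝ => ∫ t in (0 : ℝ)..1, ‖g (s, t)‖ :=
      intervalIntegral.continuous_parametric_intervalIntegral_of_continuous' (by fun_prop) _ _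
    have i2 : Continuous fun s : ℝ => ∫ t in (0 : ℝ)..1, ‖D2 g (s, t)‖ :=
      intervalIntegral.continuous_parametric_intervalIntegral_of_continuous' (by fun_prop) _ _
    have i0 : Continuous fun s : ℝ => ‖g (s, y)‖ := by fun_prop
    have h : ∫ s in (0 : ℝ)..1, ‖g (s, y)‖ ≤ ∫ s in (0 : ℝ)..1,
        ((∫ t in (0 : ℝ)..1, ‖g (s, t)‖) + ∫ t in (0 : ℝ)..1, ‖D2 g (s, t)‖) :=
      intervalIntegral.integral_mono_on (by norm_num) (i0.intervalIntegrable _ _)
        ((i1.add i2).intervalIntegrable _ _) (fun s _ => b s)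
    rw [intervalIntegral.integral_add (i1.intervalIntegrable _ _) (i2.intervalIntegrable _ _)] at h
    have e1 : ∀ k : ℝ × ℝ → ℂ, Continuous k →
        ∫ s in (0 : ℝ)..1, ∫ t in (0 : ℝ)..1, ‖k (s, t)‖ = ∫ p, ‖k p‖ ∂μQ := by
      intro k hk
      have h := integral_prod (fun p => ‖k p‖) (integrable_of_continuous (by fun_prop))
      rw [show (∫ p, ‖k p‖ ∂μQ) = _ from h]
      rw [intervalIntegral.integral_of_le (by norm_num)]
      refine integral_congr_ae (ae_of_all _ fun x => ?_)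
      simp only
      rw [intervalIntegral.integral_of_le (by norm_num)]
    have h2 := e1 g c1
    have h3 := e1 (D2 g) c2
    rw [h2, h3] at h
    have := integral_norm_le_N c1
    have := integral_norm_le_N c2
    linarith
  have b1 := sobolev_1d (u := fun s => f (s, y)) (u' := fun s => D1 f (s, y))
        (fun t => hasDerivAt_x hf t y) ((hf.hD (1, 0)).continuous.comp (by fun_prop)) hx
  have b2 := key f hf
  have b3 := key (D1 f) (hf.hD _)
  linarith

end KB
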