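import Pool.Agent.Helper63.KB.Unif

/-!
# Uniformization of the Klein bottle: the final existence theorem
-/

open Real MeasureTheory Set Filter
open scoped ContDiff ComplexConjugate Topology

namespace KB

section

variable {g : RMetric} {κ : ℝ} {Φ : ℝ × ℝ → ℂ}
variable (hΦ : SP Φ) (hκ : κ ^ 2 < 1) (hbel : ∀ p, (κ : ℂ) + dzb Φ p = g.mu p * (1 + dz Φ p))
  (hne : ∀ p, 1 + dz Φ p ≠ 0) (hsym : ∀ p, conj (Φ (sg p)) = Φ p)

include hΦ in
lemma wR_int (m n : ℤ) (p : ℝ × ℝ) :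
    wR κ Φ (p + ((m : ℝ), (n : ℝ))) = ((m : ℝ) * (1 + κ), (n : ℝ) * (1 - κ)) + wR κ Φ p := by
  unfold wR wC
  rw [hΦ.per_int]
  ext
  · simp; ring
  · simp; ring

include hκ in
lemma kappa_bounds : 0 < 1 + κ ∧ 0 < 1 - κ := by
  have h1 : |κ| < 1 := by rw [← sq_lt_one_iff_abs_lt_one]; exact hκ
  have := abs_lt.1 h1
  constructor <;> linarith [this.1, this.2]

include hΦ hκ hbel hne in
lemma wR_injective : Function.Injective (wR κ Φ) := (wR_bijective hΦ hκ hbel hne).1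

include hΦ hκ hbel hne in
lemma fund_image : IsAddFundamentalDomain (lat (1 + κ) (1 - κ))
    (wR κ Φ '' (Ico (0 : ℝ) 1 ×ˢ Ico (0 : ℝ) 1)) volume := by
  obtain ⟨h1, h2⟩ := kappa_bounds hκ
  have hinj := wR_injective hΦ hκ hbel hne
  refine IsAddFundamentalDomain.mk' ?_ fun x => ?_
  · exact ((measurableSet_Ico.prod measurableSet_Ico).image_of_continuousOn_injOn
      (wR_smooth hΦ).continuous.continuousOn hinj.injOn).nullMeasurableSet
  · obtain ⟨p, rfl⟩ := (wR_bijective hΦ hκ hbel hne).2 x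
    obtain ⟨m, hm, hm'⟩ := existsUnique_floor one_pos p.1
    obtain ⟨n, hn, hn'⟩ := existsUnique_floor one_pos p.2
    refine ⟨⟨((m : ℝ) * (1 + κ), (n : ℝ) * (1 - κ)), m, n, rfl⟩, ?_, ?_⟩
    · refine ⟨p + ((m : ℝ), (n : ℝ)), ⟨?_, ?_⟩, ?_⟩
      · simpa [add_comm] using hm
      · simpa [add_comm] using hn
      · rw [wR_int hΦ]; rfl
    · rintro ⟨_, m', n', rfl⟩ ⟨q, ⟨hq1, hq2⟩, hq⟩
      have e : wR κ Φ q = wR κ Φ (p + ((m' : ℝ), (n' : ℝ))) := by
        rw [wR_int hΦ, hq]; rfl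
      have e' := hinj e
      rw [e'] at hq1 hq2
      have e1 := hm' m' (by simpa [add_comm] using hq1)
      have e2 := hn' n' (by simpa [add_comm] using hq2)
      subst e1 e2
      rfl

include hκ in
lemma fund_rect : IsAddFundamentalDomain (lat (1 + κ) (1 - κ))
    (Ico (0 : ℝ) (1 + κ) ×ˢ Ico (0 : ℝ) (1 - κ)) volume := by
  obtain ⟨h1, h2⟩ := kappa_bounds hκ
  exact IsAddFundamentalDomain.mk' (measurableSet_Ico.prod measurableSet_Ico).nullMeasurableSet
    (lat_existsUnique h1 h2)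

lemma setIntegral_Ico_Icc (φ : ℝ × ℝ → ℝ) (a b c d : ℝ) :
    ∫ q in Ico a b ×ˢ Ico c d, φ q = ∫ q in Icc a b ×ˢ Icc c d, φ q :=
  setIntegral_congr_set (by
    rw [Measure.volume_eq_prod]
    exact Measure.set_prod_ae_eq Ico_ae_eq_Icc Ico_ae_eq_Icc)

include hΦ hκ hbel hne hsym in
theorem unif_aux : Nonempty (Unif g) := by
  obtain ⟨hk1, hk2⟩ := kappa_bounds hκ
  have hbij := wR_bijective hΦ hκ hbel hne
  have hloc := isLocalHomeomorph_of_deriv ((wR_smooth (κ := κ) hΦ).of_le (by simp))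
    (exists_equiv hΦ hbel hne)
  let T : (ℝ × ℝ) ≃ₜ (ℝ × ℝ) := hloc.toHomeomorphOfBijective hbij
  have hT : ∀ p, T p = wR κ Φ p := fun p => rfl
  let W : ℝ × ℝ → ℝ × ℝ := T.symm
  have hTW : ∀ q, wR κ Φ (W q) = q := fun q => T.apply_symm_apply q
  have hWT : ∀ p, W (wR κ Φ p) = p := fun p => T.symm_apply_apply p
  choose e he using exists_equiv hΦ hbel hne
  have hd : ∀ p, HasFDerivAt (wR κ Φ) (e p : ℝ × ℝ →L[ℝ] ℝ × ℝ) p := fun p => by
    rw [← he p]
    exact ((wR_smooth hΦ).differentiable (by simp) p).hasFDerivAt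
  have hWs : ContDiff ℝ ∞ W := T.contDiff_symm hd (wR_smooth hΦ)
  let f : ℝ × ℝ → ℝ := fun q => hh g Φ (W q)
  have hfs : ContDiff ℝ ∞ f := (hh_smooth hΦ hne).comp hWs
  have hWB : ∀ u v, W (u + (1 + κ) / 2, -v) = deck 1 0 (W (u, v)) := by
    intro u v
    rw [← sg_eq, ← hWT (sg (W (u, v))), wR_sg hsym, hTW]
  have hWL : ∀ u v, W (u, v + (1 - κ)) = deck 0 1 (W (u, v)) := by
    intro u v
    rw [RMetric.deck_zero_one, ← hWT (W (u, v) + (0, 1)), wR_per2 hΦ, hTW]
  have hfB : ∀ u v, f (u + (1 + κ) / 2, -v) = f (u, v) := by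
    intro u v
    simp only [f]
    rw [hWB, ← sg_eq, hh_sg hΦ hsym]
  have hfL : ∀ u v, f (u, v + (1 - κ)) = f (u, v) := by
    intro u v
    simp only [f]
    rw [hWL, RMetric.deck_zero_one, hh_per2 hΦ]
  refine ⟨{ B := (1 + κ) / 2, L := 1 - κ, hB := by linarith, hL := hk2, W := W, f := f,
            W_smooth := hWs.of_le (by simp), f_smooth := hfs.of_le (by simp),
            f_pos := fun q => hh_pos hne _, W_B := hWB, W_L := hWL, f_B := hfB, f_L := hfL,
            conf := ?_, area_eq := ?_ }⟩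
  · intro q ξ
    rw [conf_source hΦ hbel hne]
    congr 1
    have h1 : HasFDerivAt W (fderiv ℝ W q) q := (hWs.differentiable (by simp) q).hasFDerivAt
    have h2 : HasFDerivAt (wR κ Φ) (fderiv ℝ (wR κ Φ) (W q)) (W q) :=
      ((wR_smooth hΦ).differentiable (by simp) _).hasFDerivAt
    have h3 := h2.comp q h1
    have h4 : (wR κ Φ ∘ W) = id := funext hTW
    rw [h4] at h3
    have h5 := h3.unique (hasFDerivAt_id q)
    have h6 : fderiv ℝ (wR κ Φ) (W q) (fderiv ℝ W q ξ) = ξ := by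
      have := congrArg (fun L => L ξ) h5
      simpa using this
    rw [fderiv_wR hΦ] at h6
    rw [norm_eq_sqrt]
    have h7 := congrArg Prod.fst h6
    have h8 := congrArg Prod.snd h6
    simp only at h7 h8
    rw [h7, h8]
  · -- area
    have hf2 : Continuous fun q => f q ^ 2 := hfs.continuous.pow 2
    have a1 : ∫ p in Icc (0 : ℝ) (2 * (1 / 2)) ×ˢ Icc (0 : ℝ) 1, g.dens p = 2 * g.area := by
      rw [double_area g.dens_smooth.continuous (by norm_num) (by norm_num)]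
      · rfl
      · intro u v
        have := g.dens_deck 1 0 (u, v)
        rw [RMetric.deck_one_zero] at this
        exact this
      · intro u v
        have := g.dens_per2 (u, v)
        simpa using this
    have a2 : ∫ q in Icc (0 : ℝ) (2 * ((1 + κ) / 2)) ×ˢ Icc (0 : ℝ) (1 - κ), f q ^ 2 =
        2 * ∫ q in Icc (0 : ℝ) ((1 + κ) / 2) ×ˢ Icc (0 : ℝ) (1 - κ), f q ^ 2 :=
      double_area hf2 (by linarith) hk2 (fun u v => by rw [hfB]) (fun u v => by rw [hfL])
    have a3 : ∫ p in Ico (0 : ℝ) 1 ×ˢ Ico (0 : ℝ) 1, g.dens p =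
        ∫ q in wR κ Φ '' (Ico (0 : ℝ) 1 ×ˢ Ico (0 : ℝ) 1), f q ^ 2 := by
      rw [integral_image_eq_integral_abs_det_fderiv_smul volume
        (measurableSet_Ico.prod measurableSet_Ico)
        (fun p _ => ((wR_smooth (κ := κ) hΦ).differentiable (by simp) p).hasFDerivAt.hasFDerivWithinAt)
        (wR_injective hΦ hκ hbel hne).injOn]
      refine integral_congr_ae (ae_of_all _ fun p => ?_)
      simp only [smul_eq_mul, f]
      rw [hWT]
      exact dens_eq hΦ hbel hne p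
    have a4 : ∫ q in wR κ Φ '' (Ico (0 : ℝ) 1 ×ˢ Ico (0 : ℝ) 1), f q ^ 2 =
        ∫ q in Ico (0 : ℝ) (1 + κ) ×ˢ Ico (0 : ℝ) (1 - κ), f q ^ 2 := by
      refine (fund_image hΦ hκ hbel hne).setIntegral_eq (fund_rect hκ) ?_
      rintro ⟨_, m, n, rfl⟩ x
      have : ∀ p, hh g Φ (p + ((m : ℝ), (n : ℝ))) = hh g Φ p := by
        intro p
        unfold hh
        rw [hΦ.hdz.per_int]
        have : g.den (p + ((m : ℝ), (n : ℝ))) = g.den p := by
          have e1 : deck (2 * m) n p = p + ((m : ℝ), (n : ℝ)) := by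
            have hev : ((-1 : ℝ)) ^ (2 * m) = 1 := (even_two_mul m).neg_one_zpow
            ext
            · simp [deck]
            · simp [deck, hev]
          rw [← e1, g.den_deck]
        rw [this]
      have e2 : W (((m : ℝ) * (1 + κ), (n : ℝ) * (1 - κ)) + x) = W x + ((m : ℝ), (n : ℝ)) := by
        rw [← hWT (W x + ((m : ℝ), (n : ℝ))), wR_int hΦ, hTW]
      change f (((m : ℝ) * (1 + κ), (n : ℝ) * (1 - κ)) + x) ^ 2 = f x ^ 2
      simp only [f]
      rw [e2, this]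
    rw [setIntegral_Ico_Icc] at a3
    rw [setIntegral_Ico_Icc] at a4
    rw [show (2 : ℝ) * (1 / 2) = 1 by norm_num] at a1
    rw [show 2 * ((1 + κ) / 2) = 1 + κ by ring] at a2
    linarith

end

/-- **Uniformization of Riemannian metrics on the Klein bottle.** -/
theorem exists_unif (g : RMetric) : Nonempty (Unif g) := by
  obtain ⟨κ, Φ, hΦ, hκ, hbel, hne, hsym⟩ := exists_w g
  exact unif_aux hΦ hκ hbel hne hsym

end KB
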