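import Pool.Agent.Helper63.KB.Series

/-!
# Fourier series of smooth doubly periodic functions
-/

open Real MeasureTheory Set
open scoped ContDiff ENNReal ComplexConjugate

namespace KB

/-- the character `exp (2π i (m x + n y))` -/
noncomputable def ek (k : ℤ × ℤ) (p : ℝ × ℝ) : ℂ :=
  Complex.exp (2 * π * Complex.I * (k.1 * p.1 + k.2 * p.2))

lemma ek_norm (k : ℤ × ℤ) (p : ℝ × ℝ) : ‖ek k p‖ = 1 := by
  unfold ek
  have : (2 * π * Complex.I * (k.1 * p.1 + k.2 * p.2) : ℂ) =
      ((2 * π * (k.1 * p.1 + k.2 * p.2) : ℝ) : ℂ) * Complex.I := by push_cast; ring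
  rw [this, Complex.norm_exp_ofReal_mul_I]

lemma ek_smooth (k : ℤ × ℤ) : ContDiff ℝ ∞ (ek k) := by
  unfold ek
  have h1 : ContDiff ℝ ∞ (fun p : ℝ × ℝ => (p.1 : ℂ)) :=
    Complex.ofRealCLM.contDiff.comp contDiff_fst
  have h2 : ContDiff ℝ ∞ (fun p : ℝ × ℝ => (p.2 : ℂ)) :=
    Complex.ofRealCLM.contDiff.comp contDiff_snd
  exact (contDiff_const.mul ((contDiff_const.mul h1).add (contDiff_const.mul h2))).cexp

lemma ek_sp (k : ℤ × ℤ) : SP (ek k) := by
  refine ⟨ek_smooth k, fun p => ?_, fun p => ?_⟩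
  · unfold ek
    have : (2 * π * Complex.I * (k.1 * ((p + (1, 0)).1 : ℝ) + k.2 * ((p + (1, 0)).2 : ℝ)) : ℂ) =
      2 * π * Complex.I * (k.1 * p.1 + k.2 * p.2) + k.1 * (2 * π * Complex.I) := by
      simp; ring
    rw [this, Complex.exp_add, Complex.exp_int_mul_two_pi_mul_I, mul_one]
  · unfold ek
    have : (2 * π * Complex.I * (k.1 * ((p + (0, 1)).1 : ℝ) + k.2 * ((p + (0, 1)).2 : ℝ)) : ℂ) =
      2 * π * Complex.I * (k.1 * p.1 + k.2 * p.2) + k.2 * (2 * π * Complex.I) := by
      simp; ring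
    rw [this, Complex.exp_add, Complex.exp_int_mul_two_pi_mul_I, mul_one]

lemma D1_ek (k : ℤ × ℤ) : D1 (ek k) = fun p => (2 * π * Complex.I * k.1) * ek k p := by
  ext ⟨x, y⟩
  have h := hasDerivAt_x (ek_sp k) x y
  have h2 : HasDerivAt (fun s : ℝ => ek k (s, y)) ((2 * π * Complex.I * k.1) * ek k (x, y)) x := by
    unfold ek
    have h3 : HasDerivAt (fun s : ℝ => (2 * π * Complex.I * (k.1 * (s : ℂ) + k.2 * (y : ℂ)) : ℂ))
        (2 * π * Complex.I * (k.1 * 1)) x := by
      have := (Complex.ofRealCLM.hasDerivAt (x := x))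
      simp only [Complex.ofRealCLM_apply, Complex.ofReal_one] at this
      exact ((this.const_mul _).add_const _).const_mul _
    convert h3.cexp using 1
    ring
  exact h.unique h2

lemma D2_ek (k : ℤ × ℤ) : D2 (ek k) = fun p => (2 * π * Complex.I * k.2) * ek k p := by
  ext ⟨x, y⟩
  have h := hasDerivAt_y (ek_sp k) x y
  have h2 : HasDerivAt (fun s : ℝ => ek k (x, s)) ((2 * π * Complex.I * k.2) * ek k (x, y)) y := by
    unfold ek
    have h3 : HasDerivAt (fun s : ℝ => (2 * π * Complex.I * (k.1 * (x : ℂ) + k.2 * (s : ℂ)) : ℂ))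
        (2 * π * Complex.I * (k.2 * 1)) y := by
      have := (Complex.ofRealCLM.hasDerivAt (x := y))
      simp only [Complex.ofRealCLM_apply, Complex.ofReal_one] at this
      exact ((this.const_mul _).const_add _).const_mul _
    convert h3.cexp using 1
    ring
  exact h.unique h2

lemma N_ek (k : ℤ × ℤ) : N (ek k) = 1 := by
  have h := N_sq (ek_sp k).continuous
  simp only [ek_norm, one_pow, integral_const, probReal_univ, smul_eq_mul, one_mul] at h
  have := N_nonneg (ek k)
  nlinarith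

/-- Fourier coefficient -/
noncomputable def ck (f : ℝ × ℝ → ℂ) (k : ℤ × ℤ) : ℂ := mean (fun p => ek (-k) p * f p)

variable {f g : ℝ × ℝ → ℂ}

lemma norm_ck_le (hf : SP f) (k : ℤ × ℤ) : ‖ck f k‖ ≤ N f := by
  refine (norm_mean_le_N ((ek_sp _).mul hf).continuous).trans ?_
  have := N_mul_le hf.continuous (ek_sp (-k)).continuous (k := 1) zero_le_one
    (fun p => (ek_norm _ p).le)
  simpa using this

lemma ck_D1 (hf : SP f) (k : ℤ × ℤ) : ck (D1 f) k = (2 * π * Complex.I * k.1) * ck f k := by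
  have h := mean_D1 ((ek_sp (-k)).mul hf)
  rw [D1, D_mul _ (ek_sp _) hf, mean_add (((ek_sp _).hD _).mul hf).continuous
    ((ek_sp _).mul (hf.hD _)).continuous] at h
  have e : (fun p => D (1, 0) (ek (-k)) p * f p) =
      fun p => (2 * π * Complex.I * (-k).1) * (ek (-k) p * f p) := by
    ext p
    have := congrFun (D1_ek (-k)) p
    simp only [D1] at this
    rw [this]; push_cast; ring
  rw [e, mean_const_mul] at h
  simp only [Prod.fst_neg, Int.cast_neg] at h
  unfold ck
  linear_combination h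

lemma ck_D2 (hf : SP f) (k : ℤ × ℤ) : ck (D2 f) k = (2 * π * Complex.I * k.2) * ck f k := by
  have h := mean_D2 ((ek_sp (-k)).mul hf)
  rw [D2, D_mul _ (ek_sp _) hf, mean_add (((ek_sp _).hD _).mul hf).continuous
    ((ek_sp _).mul (hf.hD _)).continuous] at h
  have e : (fun p => D (0, 1) (ek (-k)) p * f p) =
      fun p => (2 * π * Complex.I * (-k).2) * (ek (-k) p * f p) := by
    ext p
    have := congrFun (D2_ek (-k)) p
    simp only [D2] at this
    rw [this]; push_cast; ring
  rw [e, mean_const_mul] at h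
  simp only [Prod.snd_neg, Int.cast_neg] at h
  unfold ck
  linear_combination h

lemma ck_zero (f : ℝ × ℝ → ℂ) : ck f 0 = mean f := by
  unfold ck ek
  simp

/-! ### Fourier inversion, from the torus in Mathlib -/

/-- the covering map of the torus -/
def torusMk (x : Fin 2 → ℝ) : UnitAddTorus (Fin 2) := fun i => (x i : UnitAddCircle)

lemma torusMk_isOpenQuotientMap : IsOpenQuotientMap torusMk := by
  have : ∀ i : Fin 2, IsOpenQuotientMap (fun x : ℝ => (x : UnitAddCircle)) := fun i =>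
    QuotientAddGroup.isOpenQuotientMap_mk
  exact IsOpenQuotientMap.piMap this

lemma coe_eq_imp {x y : ℝ} (h : (x : UnitAddCircle) = (y : UnitAddCircle)) :
    ∃ n : ℤ, x = y + n := by
  have : ((x - y : ℝ) : UnitAddCircle) = 0 := by
    rw [AddCircle.coe_sub, h, sub_self]
  obtain ⟨n, hn⟩ := (AddCircle.coe_eq_zero_iff (1 : ℝ)).1 this
  refine ⟨n, ?_⟩
  simp at hn
  linarith

lemma SP.factors (hf : SP f) {x y : Fin 2 → ℝ} (h : torusMk x = torusMk y) :
    f (x 0, x 1) = f (y 0, y 1) := by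
  have h0 : (x 0 : UnitAddCircle) = (y 0 : UnitAddCircle) := congrFun h 0
  have h1 : (x 1 : UnitAddCircle) = (y 1 : UnitAddCircle) := congrFun h 1
  obtain ⟨m, hm⟩ := coe_eq_imp h0
  obtain ⟨n, hn⟩ := coe_eq_imp h1
  rw [hm, hn]
  exact hf.per_int m n (y 0, y 1)

/-- The continuous function on the torus induced by a smooth periodic function. -/
noncomputable def toTorus (hf : SP f) : C(UnitAddTorus (Fin 2), ℂ) where
  toFun t := f (Function.surjInv torusMk_isOpenQuotientMap.surjective t 0,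
    Function.surjInv torusMk_isOpenQuotientMap.surjective t 1)
  continuous_toFun := by
    rw [torusMk_isOpenQuotientMap.isQuotientMap.continuous_iff]
    have : ((fun t => f (Function.surjInv torusMk_isOpenQuotientMap.surjective t 0,
        Function.surjInv torusMk_isOpenQuotientMap.surjective t 1)) ∘ torusMk) =
        fun x : Fin 2 → ℝ => f (x 0, x 1) := by
      ext x
      exact hf.factors (Function.surjInv_eq torusMk_isOpenQuotientMap.surjective (torusMk x))
    rw [this]
    exact hf.continuous.comp (by fun_prop)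

lemma toTorus_apply (hf : SP f) (x : Fin 2 → ℝ) : toTorus hf (torusMk x) = f (x 0, x 1) :=
  hf.factors (Function.surjInv_eq torusMk_isOpenQuotientMap.surjective (torusMk x))

lemma mFourier_torusMk (n : Fin 2 → ℤ) (x : Fin 2 → ℝ) :
    UnitAddTorus.mFourier n (torusMk x) = ek (n 0, n 1) (x 0, x 1) := by
  simp only [UnitAddTorus.mFourier, ContinuousMap.coe_mk, Fin.prod_univ_two, torusMk]
  rw [fourier_coe_apply, fourier_coe_apply, ← Complex.exp_add]
  unfold ek
  congr 1
  push_cast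
  ring

lemma mFourierCoeff_toTorus (hf : SP f) (n : Fin 2 → ℤ) :
    UnitAddTorus.mFourierCoeff (toTorus hf) n = ck f (n 0, n 1) := by
  rw [UnitAddTorus.mFourierCoeff_eq_integral _ n 0]
  have e : ∀ x : Fin 2 → ℝ, UnitAddTorus.mFourier (-n) (fun i => ((x i : ℝ) : UnitAddCircle)) •
      toTorus hf (fun i => ((x i : ℝ) : UnitAddCircle)) =
      (fun p : ℝ × ℝ => ek (-(n 0, n 1)) p * f p) (MeasurableEquiv.finTwoArrow x) := by
    intro x
    have h1 := mFourier_torusMk (-n) x
    have h2 := toTorus_apply hf x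
    unfold torusMk at h1 h2
    rw [h1, h2]
    rfl
  simp_rw [e]
  have hp := (volume_preserving_finTwoArrow ℝ).setIntegral_preimage_emb
    (MeasurableEquiv.measurableEmbedding _) (fun p : ℝ × ℝ => ek (-(n 0, n 1)) p * f p)
    (Ioc (0 : ℝ) 1 ×ˢ Ioc (0 : ℝ) 1)
  have hset : {x : Fin 2 → ℝ | ∀ i, x i ∈ Ioc ((0 : Fin 2 → ℝ) i) ((0 : Fin 2 → ℝ) i + 1)} =
      (MeasurableEquiv.finTwoArrow ⁻¹' (Ioc (0 : ℝ) 1 ×ˢ Ioc (0 : ℝ) 1)) := by
    ext x
    simp [MeasurableEquiv.finTwoArrow, Fin.forall_fin_two]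
  rw [hset, hp]
  unfold ck mean
  rw [μQ_eq]

lemma hasSum_ck (hf : SP f) (h : Summable (ck f)) (p : ℝ × ℝ) :
    HasSum (fun k => ck f k * ek k p) (f p) := by
  have hs : Summable (UnitAddTorus.mFourierCoeff (toTorus hf)) := by
    have : UnitAddTorus.mFourierCoeff (toTorus hf) = ck f ∘ (finTwoArrowEquiv ℤ) := by
      ext n
      rw [mFourierCoeff_toTorus]
      rfl
    rw [this]
    exact (Equiv.summable_iff (finTwoArrowEquiv ℤ)).2 h
  have h1 := UnitAddTorus.hasSum_mFourier_series_apply_of_summable hs (torusMk ![p.1, p.2])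
  rw [toTorus_apply] at h1
  simp only [mFourierCoeff_toTorus, mFourier_torusMk, Matrix.cons_val_zero, Matrix.cons_val_one,
    smul_eq_mul] at h1
  rw [← Equiv.hasSum_iff (finTwoArrowEquiv ℤ)]
  exact h1

end KB
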