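import Pool.Agent.Helper63.KB.UnifDef
import Pool.Agent.Helper63.KB.Beltrami

/-!
# The Beltrami coefficient of a metric on the Klein bottle
-/

open Real MeasureTheory Set Filter
open scoped ContDiff ComplexConjugate Topology

namespace KB

namespace RMetric

variable (g : RMetric)

/-- area density -/
noncomputable def dens (p : ℝ × ℝ) : ℝ := √(g.E p * g.G p - g.F p ^ 2)

lemma dens_pos (p : ℝ × ℝ) : 0 < g.dens p := Real.sqrt_pos.2 (g.pos_det p)

lemma dens_sq (p : ℝ × ℝ) : g.dens p ^ 2 = g.E p * g.G p - g.F p ^ 2 :=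
  Real.sq_sqrt (g.pos_det p).le

lemma G_pos (p : ℝ × ℝ) : 0 < g.G p := by
  have h1 := g.pos_E p
  have h2 := g.pos_det p
  by_contra h
  push Not at h
  nlinarith [sq_nonneg (g.F p), mul_nonneg h1.le (neg_nonneg.2 h)]

lemma dens_smooth : ContDiff ℝ ∞ g.dens :=
  ((g.smooth_E.mul g.smooth_G).sub (g.smooth_F.pow 2)).sqrt fun p => (g.pos_det p).ne'

/-- the denominator -/
noncomputable def den (p : ℝ × ℝ) : ℝ := g.E p + g.G p + 2 * g.dens p

lemma den_pos (p : ℝ × ℝ) : 0 < g.den p := by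
  have h1 := g.pos_E p
  have h2 := g.G_pos p
  have h3 := g.dens_pos p
  unfold den
  linarith

lemma den_smooth : ContDiff ℝ ∞ g.den :=
  (g.smooth_E.add g.smooth_G).add (contDiff_const.mul g.dens_smooth)

/-- Beltrami coefficient -/
noncomputable def mu (p : ℝ × ℝ) : ℂ :=
  (((g.E p - g.G p) / g.den p : ℝ) : ℂ) + ((2 * g.F p / g.den p : ℝ) : ℂ) * Complex.I

lemma deck_two_zero (p : ℝ × ℝ) : deck 2 0 p = p + (1, 0) := by
  ext
  · simp [deck]
  · simp [deck]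

lemma deck_zero_one (p : ℝ × ℝ) : deck 0 1 p = p + (0, 1) := by
  ext <;> simp [deck]

lemma deck_one_zero (p : ℝ × ℝ) : deck 1 0 p = (p.1 + 1 / 2, -p.2) := by
  ext <;> simp [deck]

lemma E_per1 (p : ℝ × ℝ) : g.E (p + (1, 0)) = g.E p := by rw [← deck_two_zero, g.inv_E]
lemma E_per2 (p : ℝ × ℝ) : g.E (p + (0, 1)) = g.E p := by rw [← deck_zero_one, g.inv_E]
lemma G_per1 (p : ℝ × ℝ) : g.G (p + (1, 0)) = g.G p := by rw [← deck_two_zero, g.inv_G]
lemma G_per2 (p : ℝ × ℝ) : g.G (p + (0, 1)) = g.G p := by rw [← deck_zero_one, g.inv_G]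
lemma F_per1 (p : ℝ × ℝ) : g.F (p + (1, 0)) = g.F p := by
  rw [← deck_two_zero, g.inv_F]; norm_num
lemma F_per2 (p : ℝ × ℝ) : g.F (p + (0, 1)) = g.F p := by
  rw [← deck_zero_one, g.inv_F]; norm_num

lemma dens_deck (m n : ℤ) (p : ℝ × ℝ) : g.dens (deck m n p) = g.dens p := by
  unfold dens
  rw [g.inv_E, g.inv_F, g.inv_G, mul_pow]
  have : ((-1 : ℝ) ^ m) ^ 2 = 1 := by
    have := neg_one_zpow_mul_self m
    rw [sq]; exact this
  rw [this, one_mul]

lemma den_deck (m n : ℤ) (p : ℝ × ℝ) : g.den (deck m n p) = g.den p := by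
  unfold den
  rw [g.inv_E, g.inv_G, g.dens_deck]

lemma dens_per1 (p : ℝ × ℝ) : g.dens (p + (1, 0)) = g.dens p := by
  rw [← deck_two_zero, g.dens_deck]
lemma dens_per2 (p : ℝ × ℝ) : g.dens (p + (0, 1)) = g.dens p := by
  rw [← deck_zero_one, g.dens_deck]
lemma den_per1 (p : ℝ × ℝ) : g.den (p + (1, 0)) = g.den p := by
  rw [← deck_two_zero, g.den_deck]
lemma den_per2 (p : ℝ × ℝ) : g.den (p + (0, 1)) = g.den p := by
  rw [← deck_zero_one, g.den_deck]

lemma mu_sp : SP g.mu := by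
  refine ⟨?_, fun p => ?_, fun p => ?_⟩
  · have h1 : ContDiff ℝ ∞ (fun p => (g.E p - g.G p) / g.den p) :=
      (g.smooth_E.sub g.smooth_G).div g.den_smooth fun p => (g.den_pos p).ne'
    have h2 : ContDiff ℝ ∞ (fun p => 2 * g.F p / g.den p) :=
      (contDiff_const.mul g.smooth_F).div g.den_smooth fun p => (g.den_pos p).ne'
    exact (Complex.ofRealCLM.contDiff.comp h1).add
      ((Complex.ofRealCLM.contDiff.comp h2).mul contDiff_const)
  · unfold mu; rw [g.E_per1, g.G_per1, g.F_per1, g.den_per1]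
  · unfold mu; rw [g.E_per2, g.G_per2, g.F_per2, g.den_per2]

lemma mu_deck (p : ℝ × ℝ) : g.mu (deck 1 0 p) = conj (g.mu p) := by
  unfold mu
  rw [g.inv_E, g.inv_F, g.inv_G, g.den_deck]
  simp only [zpow_one, map_add, map_mul, Complex.conj_ofReal, Complex.conj_I]
  push_cast
  ring

lemma normSq_mu (p : ℝ × ℝ) : ‖g.mu p‖ ^ 2 = (g.E p + g.G p - 2 * g.dens p) / g.den p := by
  unfold mu
  rw [← Complex.normSq_eq_norm_sq, Complex.normSq_add_mul_I]
  have h := g.den_pos p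
  have hs := g.dens_sq p
  have hd : g.den p = g.E p + g.G p + 2 * g.dens p := rfl
  field_simp
  rw [hd]
  nlinarith

lemma norm_mu_lt (p : ℝ × ℝ) : ‖g.mu p‖ < 1 := by
  have h1 := g.normSq_mu p
  have h2 := g.den_pos p
  have h3 := g.dens_pos p
  have h4 : (g.E p + g.G p - 2 * g.dens p) / g.den p < 1 := by
    rw [div_lt_one h2]
    unfold den
    linarith
  rw [← h1] at h4
  by_contra h
  push Not at h
  nlinarith

lemma exists_bound_mu : ∃ k : ℝ, 0 ≤ k ∧ k < 1 ∧ ∀ p, ‖g.mu p‖ ≤ k := by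
  obtain ⟨q, -, hq⟩ := (isCompact_Icc.prod isCompact_Icc :
    IsCompact (Icc (0 : ℝ) 1 ×ˢ Icc (0 : ℝ) 1)).exists_isMaxOn
      ⟨(0, 0), by simp⟩ (g.mu_sp.continuous.norm.continuousOn)
  refine ⟨‖g.mu q‖, norm_nonneg _, g.norm_mu_lt q, fun p => ?_⟩
  obtain ⟨r, hr, e⟩ := g.mu_sp.exists_mem_unit p
  rw [e]
  exact hq hr

/-- The metric in terms of the Beltrami coefficient -/
lemma norm_sq_eq (p v : ℝ × ℝ) :
    g.norm p v ^ 2 = g.den p / 4 *
      ‖((v.1 : ℂ) + v.2 * Complex.I) + g.mu p * conj ((v.1 : ℂ) + v.2 * Complex.I)‖ ^ 2 := by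
  have hpos : 0 ≤ g.E p * v.1 ^ 2 + 2 * g.F p * v.1 * v.2 + g.G p * v.2 ^ 2 := by
    have h1 := g.pos_E p
    have h2 := g.pos_det p
    have h3 : 0 ≤ g.E p * (g.E p * v.1 ^ 2 + 2 * g.F p * v.1 * v.2 + g.G p * v.2 ^ 2) := by
      have : g.E p * (g.E p * v.1 ^ 2 + 2 * g.F p * v.1 * v.2 + g.G p * v.2 ^ 2) =
        (g.E p * v.1 + g.F p * v.2) ^ 2 + (g.E p * g.G p - g.F p ^ 2) * v.2 ^ 2 := by ring
      rw [this]
      positivity
    exact nonneg_of_mul_nonneg_right h3 h1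
  unfold norm
  rw [Real.sq_sqrt hpos]
  have h := g.den_pos p
  have hs := g.dens_sq p
  have hd : g.den p = g.E p + g.G p + 2 * g.dens p := rfl
  have e : ((v.1 : ℂ) + v.2 * Complex.I) + g.mu p * conj ((v.1 : ℂ) + v.2 * Complex.I) =
      ((v.1 + (g.E p - g.G p) / g.den p * v.1 + 2 * g.F p / g.den p * v.2 : ℝ) : ℂ) +
      ((v.2 - (g.E p - g.G p) / g.den p * v.2 + 2 * g.F p / g.den p * v.1 : ℝ) : ℂ) *
        Complex.I := by
    unfold mu
    simp only [map_add, map_mul, Complex.conj_ofReal, Complex.conj_I]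
    push_cast
    linear_combination (-(2 * (g.F p : ℂ) / (g.den p : ℂ) * v.2)) * Complex.I_sq
  rw [e, ← Complex.normSq_eq_norm_sq, Complex.normSq_add_mul_I]
  field_simp
  rw [hd]
  have hF : g.F p ^ 2 = g.E p * g.G p - g.dens p ^ 2 := by linarith
  linear_combination (-(4 * (v.1 ^ 2 + v.2 ^ 2))) * hF

end RMetric

end KB
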