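import Pool.Agent.Helper63.KB.Sol

/-!
# Neumann series for the Beltrami equation on the torus
-/

open Real MeasureTheory Set Filter
open scoped ContDiff ENNReal ComplexConjugate Topology

namespace KB

lemma summable_of_recur {a b : ℕ → ℝ} {k : ℝ} (hk : k < 1) (ha : ∀ n, 0 ≤ a n)
    (hb0 : ∀ n, 0 ≤ b n) (hb : Summable b) (h : ∀ n, a (n + 1) ≤ k * a n + b n) : Summable a := by
  refine summable_of_sum_range_le (c := (a 0 + ∑' n, b n) / (1 - k)) ha fun n => ?_
  rw [le_div_iff₀ (by linarith)]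
  have h1 : ∀ n, ∑ i ∈ Finset.range n, a (i + 1) ≤ k * ∑ i ∈ Finset.range n, a i +
      ∑ i ∈ Finset.range n, b i := by
    intro n
    rw [Finset.mul_sum, ← Finset.sum_add_distrib]
    exact Finset.sum_le_sum fun i _ => h i
  have h2 : ∑ i ∈ Finset.range n, a i ≤ ∑ i ∈ Finset.range (n + 1), a i :=
    Finset.sum_le_sum_of_subset_of_nonneg (Finset.range_subset_range.2 (Nat.le_succ n))
      fun i _ _ => ha i
  rw [Finset.sum_range_succ'] at h2
  have h3 := h1 n
  have h4 : ∑ i ∈ Finset.range n, b i ≤ ∑' n, b n := hb.sum_le_tsum _ fun i _ => hb0 i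
  nlinarith

section

variable {μ : ℝ × ℝ → ℂ} (hμ : SP μ) {k : ℝ} (hk0 : 0 ≤ k) (hk : k < 1) (hb : ∀ p, ‖μ p‖ ≤ k)

include hμ hk0 hk hb

lemma neumann_sum (s : ℕ) :
    ∀ (T r : ℕ → ℝ × ℝ → ℂ) (e : ℕ → ℂ), (∀ n, SP (T n)) → (∀ n, SP (r n)) →
      (∀ n, T (n + 1) = fun p => (μ p * Sop (T n) p + r n p) - e n) →
      (∀ n, N (T (n + 1)) ≤ k * N (T n) + N (r n)) →
      (Summable fun n => A s (r n)) → Summable fun n => A s (T n) := by
  induction s with
  | zero =>
    intro T r e hT hr hrec hN hsum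
    exact summable_of_recur hk (fun n => N_nonneg _) (fun n => N_nonneg _) hsum hN
  | succ s ih =>
    intro T r e hT hr hrec hN hsum
    have hsum0 : Summable fun n => A s (r n) :=
      hsum.of_nonneg_of_le (fun n => A_nonneg _ _) fun n => A_le_succ s _
    have hTs := ih T r e hT hr hrec hN hsum0
    have hsumN : Summable fun n => N (T n) :=
      hTs.of_nonneg_of_le (fun n => N_nonneg _) fun n => N_le_A s _
    -- derivative step
    have step : ∀ v : ℝ × ℝ, (∀ f, SP f → D v (Sop f) = Sop (D v f)) →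
        (Summable fun n => A s (D v (r n))) → Summable fun n => A s (D v (T n)) := by
      intro v hv hsv
      obtain ⟨C, hC, hC2⟩ := A_mul s (hμ.hD v)
      have hr' : ∀ n, SP (fun p => D v μ p * Sop (T n) p + D v (r n) p) := fun n =>
        ((hμ.hD v).mul (Sop_sp (hT n))).add ((hr n).hD v)
      have hrec' : ∀ n, D v (T (n + 1)) = fun p => (μ p * Sop (D v (T n)) p +
          (D v μ p * Sop (T n) p + D v (r n) p)) - (0 : ℂ) := by
        intro n
        rw [hrec n, D_sub v ((hμ.mul (Sop_sp (hT n))).add (hr n)) (SP.const _),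
          D_add v (hμ.mul (Sop_sp (hT n))) (hr n), D_mul v hμ (Sop_sp (hT n)), D_const,
          hv _ (hT n)]
        ext p; ring
      refine ih (fun n => D v (T n)) (fun n => fun p => D v μ p * Sop (T n) p + D v (r n) p)
        (fun _ => 0) (fun n => (hT n).hD v) hr' hrec' ?_ ?_
      · intro n
        rw [hrec' n]
        simp only [sub_zero]
        have h1 := N_add (hμ.mul (Sop_sp ((hT n).hD v))).continuous (hr' n).continuous
        have h2 := N_mul_le (Sop_sp ((hT n).hD v)).continuous hμ.continuous hk0 hb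
        have h3 := N_Sop_le ((hT n).hD v)
        have h4 := mul_le_mul_of_nonneg_left h3 hk0
        linarith
      · refine ((hTs.mul_left C).add hsv).of_nonneg_of_le (fun n => A_nonneg _ _) fun n => ?_
        have h1 := A_add s ((hμ.hD v).mul (Sop_sp (hT n))) ((hr n).hD v)
        have h2 := hC2 _ (Sop_sp (hT n))
        have h3 := mul_le_mul_of_nonneg_left (A_Sop_le s (hT n)) hC
        linarith
    have s1 := step (1, 0) (fun f hf => D1_Sop hf)
      (hsum.of_nonneg_of_le (fun n => A_nonneg _ _) fun n => A_D1_le s _)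
    have s2 := step (0, 1) (fun f hf => D2_Sop hf)
      (hsum.of_nonneg_of_le (fun n => A_nonneg _ _) fun n => A_D2_le s _)
    exact hsumN.add (s1.add s2)

end

/-- First Neumann series. -/
noncomputable def bT (μ : ℝ × ℝ → ℂ) : ℕ → (ℝ × ℝ → ℂ)
  | 0 => μ
  | n + 1 => fun p => μ p * Sop (bT μ n) p

/-- Second Neumann series. -/
noncomputable def bU (μ : ℝ × ℝ → ℂ) : ℕ → (ℝ × ℝ → ℂ)
  | 0 => dz μ
  | n + 1 => fun p => μ p * Sop (bU μ n) p - mean (fun p => μ p * Sop (bU μ n) p)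

section

variable {μ : ℝ × ℝ → ℂ} (hμ : SP μ)

include hμ

lemma bT_sp (n : ℕ) : SP (bT μ n) := by
  induction n with
  | zero => exact hμ
  | succ n ih => exact hμ.mul (Sop_sp ih)

lemma bU_sp (n : ℕ) : SP (bU μ n) := by
  induction n with
  | zero => exact hμ.hdz
  | succ n ih => exact (hμ.mul (Sop_sp ih)).sub (SP.const _)

lemma bU_mean (n : ℕ) : mean (bU μ n) = 0 := by
  cases n with
  | zero => exact mean_dz hμ
  | succ n =>
    simp only [bU]
    rw [mean_sub (hμ.mul (Sop_sp (bU_sp hμ n))).continuous continuous_const, mean_const, sub_self]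

variable {k : ℝ} (hk0 : 0 ≤ k) (hk : k < 1) (hb : ∀ p, ‖μ p‖ ≤ k)

include hk0 hk hb

lemma bT_fam : Fam (bT μ) := by
  refine ⟨bT_sp hμ, fun s => neumann_sum hμ hk0 hk hb s (bT μ) (fun _ _ => 0) (fun _ => 0)
    (bT_sp hμ) (fun _ => SP.const 0) (fun n => ?_) (fun n => ?_) ?_⟩
  · ext p; simp [bT]
  · have h2 := N_mul_le (Sop_sp (bT_sp hμ n)).continuous hμ.continuous hk0 hb
    have h4 := mul_le_mul_of_nonneg_left (N_Sop_le (bT_sp hμ n)) hk0
    have := N_nonneg (fun _ : ℝ × ℝ => (0 : ℂ))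
    simp only [bT]
    linarith
  · have : ∀ s, A s (fun _ => 0) = 0 := by
      intro s
      have := A_const_mul s (SP.const 0) 0
      simpa using this
    simp only [this]
    exact summable_zero

lemma bU_fam : Fam (bU μ) := by
  refine ⟨bU_sp hμ, fun s => neumann_sum hμ hk0 hk hb s (bU μ) (fun _ _ => 0)
    (fun n => mean (fun p => μ p * Sop (bU μ n) p))
    (bU_sp hμ) (fun _ => SP.const 0) (fun n => ?_) (fun n => ?_) ?_⟩
  · ext p; simp [bU]
  · have h1 := N_sub_mean_le (hμ.mul (Sop_sp (bU_sp hμ n))).continuous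
    have h2 := N_mul_le (Sop_sp (bU_sp hμ n)).continuous hμ.continuous hk0 hb
    have h4 := mul_le_mul_of_nonneg_left (N_Sop_le (bU_sp hμ n)) hk0
    have := N_nonneg (fun _ : ℝ × ℝ => (0 : ℂ))
    simp only [bU]
    linarith
  · have : ∀ s, A s (fun _ => 0) = 0 := by
      intro s
      have := A_const_mul s (SP.const 0) 0
      simpa using this
    simp only [this]
    exact summable_zero

end

lemma Fam.sol {T : ℕ → ℝ × ℝ → ℂ} (h : Fam T) : Fam (fun n => Sol (T n)) :=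
  ⟨fun n => Sol_sp (h.sp n), fun s => ((h.sum (s + 4)).mul_left _).of_nonneg_of_le
    (fun _ => A_nonneg _ _) fun n => A_Sol_le s (h.sp n)⟩

/-- `t^{n+1}`-weighted sum of the `Sol (T n)` -/
noncomputable def PS (T : ℕ → ℝ × ℝ → ℂ) (t : ℝ) : ℝ × ℝ → ℂ :=
  fun p => ∑' n, ((t : ℂ) ^ (n + 1)) * Sol (T n) p

section

variable {T : ℕ → ℝ × ℝ → ℂ} (h : Fam T) {t : ℝ} (ht0 : 0 ≤ t) (ht1 : t ≤ 1)

include ht0 ht1 in
lemma norm_tpow_le (n : ℕ) : ‖((t : ℂ) ^ (n + 1))‖ ≤ 1 := by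
  rw [norm_pow, Complex.norm_real, Real.norm_of_nonneg ht0]
  exact pow_le_one₀ ht0 ht1

include h ht0 ht1

lemma PS_fam : Fam (fun n p => ((t : ℂ) ^ (n + 1)) * Sol (T n) p) :=
  h.sol.weight (norm_tpow_le ht0 ht1)

lemma PS_sp : SP (PS T t) := (PS_fam h ht0 ht1).spSum

lemma PS_dz (p : ℝ × ℝ) : dz (PS T t) p = ∑' n, ((t : ℂ) ^ (n + 1)) * Sop (T n) p := by
  have := congrFun (PS_fam h ht0 ht1).dz_tsum p
  unfold PS
  rw [this]
  refine tsum_congr fun n => ?_
  exact congrFun (dz_const_mul (Sol_sp (h.sp n)) _) p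

lemma PS_dzb (p : ℝ × ℝ) :
    dzb (PS T t) p = ∑' n, ((t : ℂ) ^ (n + 1)) * (T n p - mean (T n)) := by
  have := congrFun (PS_fam h ht0 ht1).dzb_tsum p
  unfold PS
  rw [this]
  refine tsum_congr fun n => ?_
  have e := congrFun (dzb_const_mul (Sol_sp (h.sp n)) ((t : ℂ) ^ (n + 1))) p
  rw [e, dzb_Sol (h.sp n)]

lemma summable_Sop (p : ℝ × ℝ) : Summable fun n => ((t : ℂ) ^ (n + 1)) * Sop (T n) p := by
  refine (h.sum 2).of_norm_bounded fun n => ?_
  rw [norm_mul]
  have h1 := norm_tpow_le ht0 ht1 n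
  have h2 := (norm_le_A2 (Sop_sp (h.sp n)) p).trans (A_Sop_le 2 (h.sp n))
  nlinarith [norm_nonneg (Sop (T n) p)]

lemma norm_PS_dz_le (p : ℝ × ℝ) : ‖dz (PS T t) p‖ ≤ t * ∑' n, A 2 (T n) := by
  rw [PS_dz h ht0 ht1]
  refine tsum_of_norm_bounded ((h.sum 2).hasSum.mul_left t) fun n => ?_
  rw [norm_mul, pow_succ, norm_mul]
  have h1 : ‖((t : ℂ) ^ n)‖ ≤ 1 := by
    rw [norm_pow, Complex.norm_real, Real.norm_of_nonneg ht0]
    exact pow_le_one₀ ht0 ht1
  have h2 := (norm_le_A2 (Sop_sp (h.sp n)) p).trans (A_Sop_le 2 (h.sp n))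
  have h3 : ‖(t : ℂ)‖ = t := by rw [Complex.norm_real, Real.norm_of_nonneg ht0]
  rw [h3]
  have h4 := A_nonneg 2 (T n)
  calc ‖(t : ℂ) ^ n‖ * t * ‖Sop (T n) p‖ ≤ 1 * t * A 2 (T n) := by gcongr
    _ = t * A 2 (T n) := by ring

end

end KB
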