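import Mathlib

/-!
# Smooth doubly periodic functions on the plane
-/

open Real MeasureTheory Set
open scoped ContDiff ENNReal ComplexConjugate

namespace KB

/-- Smooth `ℤ²`-periodic complex valued functions on the plane. -/
structure SP (f : ℝ × ℝ → ℂ) : Prop where
  smooth : ContDiff ℝ ∞ f
  per1 : ∀ p, f (p + (1, 0)) = f p
  per2 : ∀ p, f (p + (0, 1)) = f p

/-- directional derivative in the direction `v` -/
noncomputable def D (v : ℝ × ℝ) (f : ℝ × ℝ → ℂ) : ℝ × ℝ → ℂ := fun p => fderiv ℝ f p v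

/-- partial derivative in `x` -/
noncomputable abbrev D1 (f : ℝ × ℝ → ℂ) : ℝ × ℝ → ℂ := D (1, 0) f
/-- partial derivative in `y` -/
noncomputable abbrev D2 (f : ℝ × ℝ → ℂ) : ℝ × ℝ → ℂ := D (0, 1) f

namespace SP

variable {f g : ℝ × ℝ → ℂ}

lemma continuous (hf : SP f) : Continuous f := hf.smooth.continuous

lemma differentiable (hf : SP f) : Differentiable ℝ f := hf.smooth.differentiable (by simp)

lemma const (c : ℂ) : SP (fun _ => c) := ⟨contDiff_const, fun _ => rfl, fun _ => rfl⟩

lemma add (hf : SP f) (hg : SP g) : SP (fun p => f p + g p) :=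
  ⟨hf.smooth.add hg.smooth, fun p => by simp only [hf.per1, hg.per1],
    fun p => by simp only [hf.per2, hg.per2]⟩

lemma sub (hf : SP f) (hg : SP g) : SP (fun p => f p - g p) :=
  ⟨hf.smooth.sub hg.smooth, fun p => by simp only [hf.per1, hg.per1],
    fun p => by simp only [hf.per2, hg.per2]⟩

lemma mul (hf : SP f) (hg : SP g) : SP (fun p => f p * g p) :=
  ⟨hf.smooth.mul hg.smooth, fun p => by simp only [hf.per1, hg.per1],
    fun p => by simp only [hf.per2, hg.per2]⟩

lemma neg (hf : SP f) : SP (fun p => - f p) :=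
  ⟨hf.smooth.neg, fun p => by simp only [hf.per1], fun p => by simp only [hf.per2]⟩

lemma const_mul (hf : SP f) (c : ℂ) : SP (fun p => c * f p) := (SP.const c).mul hf

lemma star' (hf : SP f) : SP (fun p => conj (f p)) :=
  ⟨Complex.conjCLE.contDiff.comp hf.smooth, fun p => by simp only [hf.per1],
    fun p => by simp only [hf.per2]⟩

lemma hD (hf : SP f) (v : ℝ × ℝ) : SP (D v f) := by
  refine ⟨?_, fun p => ?_, fun p => ?_⟩
  · exact (hf.smooth.fderiv_right (m := ∞) (by simp)).clm_apply contDiff_const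
  · unfold KB.D
    have : (fun q => f (q + (1, 0))) = f := funext hf.per1
    rw [← fderiv_comp_add_right, this]
  · unfold KB.D
    have : (fun q => f (q + (0, 1))) = f := funext hf.per2
    rw [← fderiv_comp_add_right, this]

end SP

section DRules

variable {f g : ℝ × ℝ → ℂ} (v w : ℝ × ℝ)

lemma D_add (hf : SP f) (hg : SP g) :
    D v (fun p => f p + g p) = fun p => D v f p + D v g p := by
  ext p
  simp only [D]
  rw [fderiv_fun_add (hf.differentiable p) (hg.differentiable p)]
  rfl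

lemma D_sub (hf : SP f) (hg : SP g) :
    D v (fun p => f p - g p) = fun p => D v f p - D v g p := by
  ext p
  simp only [D]
  rw [fderiv_fun_sub (hf.differentiable p) (hg.differentiable p)]
  rfl

lemma D_neg : D v (fun p => - f p) = fun p => - D v f p := by
  ext p
  simp only [D]
  rw [fderiv_fun_neg]
  rfl

lemma D_mul (hf : SP f) (hg : SP g) :
    D v (fun p => f p * g p) = fun p => D v f p * g p + f p * D v g p := by
  ext p
  simp only [D]
  rw [fderiv_fun_mul (hf.differentiable p) (hg.differentiable p)]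
  simp only [_root_.add_apply, _root_.smul_apply, smul_eq_mul]
  ring

lemma D_const (c : ℂ) : D v (fun _ => c) = fun _ => 0 := by
  ext p
  simp [D]

lemma D_const_mul (hf : SP f) (c : ℂ) :
    D v (fun p => c * f p) = fun p => c * D v f p := by
  rw [D_mul v (SP.const c) hf, D_const]
  ext p; simp

lemma D_conj (hf : SP f) :
    D v (fun p => conj (f p)) = fun p => conj (D v f p) := by
  ext p
  simp only [D]
  have h1 : HasFDerivAt f (fderiv ℝ f p) p := (hf.differentiable p).hasFDerivAt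
  have h2 : HasFDerivAt (fun q => conj (f q)) ((Complex.conjCLE : ℂ →L[ℝ] ℂ).comp (fderiv ℝ f p)) p :=
    (Complex.conjCLE : ℂ →L[ℝ] ℂ).hasFDerivAt.comp p h1
  rw [h2.fderiv]
  rfl

lemma D_comm (hf : SP f) : D v (D w f) = D w (D v f) := by
  ext p
  have hs : IsSymmSndFDerivAt ℝ f p :=
    (hf.smooth.contDiffAt).isSymmSndFDerivAt (by
      simp only [minSmoothness_of_isRCLikeNormedField]
      exact ENat.LEInfty.out)
  have hd : DifferentiableAt ℝ (fderiv ℝ f) p :=
    ((hf.smooth.fderiv_right (m := ∞) (by simp)).differentiable (by simp)) p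
  have h1 : ∀ u : ℝ × ℝ, HasFDerivAt (fun q => fderiv ℝ f q u)
      ((ContinuousLinearMap.apply ℝ ℂ u).comp (fderiv ℝ (fderiv ℝ f) p)) p := fun u =>
    (ContinuousLinearMap.apply ℝ ℂ u).hasFDerivAt.comp p hd.hasFDerivAt
  change fderiv ℝ (fun q => fderiv ℝ f q w) p v = fderiv ℝ (fun q => fderiv ℝ f q v) p w
  rw [(h1 w).fderiv, (h1 v).fderiv]
  simp only [ContinuousLinearMap.comp_apply, ContinuousLinearMap.apply_apply]
  exact hs v w

end DRules

/-! ### Integration over the unit square -/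

/-- Lebesgue measure on the unit square. -/
noncomputable def μQ : Measure (ℝ × ℝ) :=
  (volume.restrict (Ioc (0 : ℝ) 1)).prod (volume.restrict (Ioc (0 : ℝ) 1))

instance : IsProbabilityMeasure (volume.restrict (Ioc (0 : ℝ) 1)) :=
  ⟨by simp⟩

instance : IsProbabilityMeasure μQ := by
  unfold μQ; infer_instance

lemma μQ_eq : μQ = volume.restrict (Ioc (0 : ℝ) 1 ×ˢ Ioc (0 : ℝ) 1) := by
  unfold μQ
  rw [Measure.prod_restrict]
  rfl

lemma integrable_of_continuous {E : Type*} [NormedAddCommGroup E] {f : ℝ × ℝ → E}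
    (hf : Continuous f) : Integrable f μQ := by
  rw [μQ_eq]
  have : IntegrableOn f (Icc (0 : ℝ) 1 ×ˢ Icc (0 : ℝ) 1) volume :=
    hf.continuousOn.integrableOn_compact (isCompact_Icc.prod isCompact_Icc)
  exact this.mono_set (prod_mono Ioc_subset_Icc_self Ioc_subset_Icc_self)

lemma memLp_of_continuous {f : ℝ × ℝ → ℂ} (hf : Continuous f) (q : ℝ≥0∞) : MemLp f q μQ := by
  obtain ⟨M, hM⟩ := (isCompact_Icc.prod isCompact_Icc :
    IsCompact (Icc (0 : ℝ) 1 ×ˢ Icc (0 : ℝ) 1)).exists_bound_of_continuousOn hf.continuousOn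
  refine MemLp.of_bound hf.aestronglyMeasurable M ?_
  rw [μQ_eq]
  refine (ae_restrict_iff' (measurableSet_Ioc.prod measurableSet_Ioc)).2 (ae_of_all _ ?_)
  intro x hx
  exact hM x (prod_mono Ioc_subset_Icc_self Ioc_subset_Icc_self hx)

/-- mean value over the unit square -/
noncomputable def mean (f : ℝ × ℝ → ℂ) : ℂ := ∫ p, f p ∂μQ

lemma mean_add {f g : ℝ × ℝ → ℂ} (hf : Continuous f) (hg : Continuous g) :
    mean (fun p => f p + g p) = mean f + mean g :=
  integral_add (integrable_of_continuous hf) (integrable_of_continuous hg)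

lemma mean_sub {f g : ℝ × ℝ → ℂ} (hf : Continuous f) (hg : Continuous g) :
    mean (fun p => f p - g p) = mean f - mean g :=
  integral_sub (integrable_of_continuous hf) (integrable_of_continuous hg)

lemma mean_const_mul (c : ℂ) (f : ℝ × ℝ → ℂ) : mean (fun p => c * f p) = c * mean f :=
  integral_const_mul c f

lemma mean_const (c : ℂ) : mean (fun _ => c) = c := by
  simp [mean]

lemma mean_prod {f : ℝ × ℝ → ℂ} (hf : Continuous f) :
    mean f = ∫ x in (0 : ℝ)..1, ∫ y in (0 : ℝ)..1, f (x, y) := by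
  have h := integral_prod f (integrable_of_continuous hf)
  unfold mean
  rw [show (∫ p, f p ∂μQ) = _ from h]
  rw [intervalIntegral.integral_of_le (by norm_num)]
  refine integral_congr_ae (ae_of_all _ fun x => ?_)
  simp only
  rw [intervalIntegral.integral_of_le (by norm_num)]

lemma mean_prod_symm {f : ℝ × ℝ → ℂ} (hf : Continuous f) :
    mean f = ∫ y in (0 : ℝ)..1, ∫ x in (0 : ℝ)..1, f (x, y) := by
  have h := integral_prod_symm f (integrable_of_continuous hf)
  unfold mean
  rw [show (∫ p, f p ∂μQ) = _ from h]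
  rw [intervalIntegral.integral_of_le (by norm_num)]
  refine integral_congr_ae (ae_of_all _ fun x => ?_)
  simp only
  rw [intervalIntegral.integral_of_le (by norm_num)]

lemma hasDerivAt_x {f : ℝ × ℝ → ℂ} (hf : SP f) (x y : ℝ) :
    HasDerivAt (fun s => f (s, y)) (D1 f (x, y)) x := by
  have h1 : HasFDerivAt f (fderiv ℝ f (x, y)) (x, y) := (hf.differentiable _).hasFDerivAt
  have h2 : HasDerivAt (fun s : ℝ => (s, y)) ((1 : ℝ), (0 : ℝ)) x :=
    (hasDerivAt_id x).prodMk (hasDerivAt_const x y)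
  exact h1.comp_hasDerivAt x h2

lemma hasDerivAt_y {f : ℝ × ℝ → ℂ} (hf : SP f) (x y : ℝ) :
    HasDerivAt (fun s => f (x, s)) (D2 f (x, y)) y := by
  have h1 : HasFDerivAt f (fderiv ℝ f (x, y)) (x, y) := (hf.differentiable _).hasFDerivAt
  have h2 : HasDerivAt (fun s : ℝ => (x, s)) ((0 : ℝ), (1 : ℝ)) y :=
    (hasDerivAt_const y x).prodMk (hasDerivAt_id y)
  exact h1.comp_hasDerivAt y h2

lemma mean_D1 {f : ℝ × ℝ → ℂ} (hf : SP f) : mean (D1 f) = 0 := by
  rw [mean_prod_symm (hf.hD _).continuous]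
  have : ∀ y : ℝ, ∫ x in (0 : ℝ)..1, D1 f (x, y) = 0 := by
    intro y
    rw [intervalIntegral.integral_eq_sub_of_hasDerivAt (f := fun s => f (s, y))
      (fun x _ => hasDerivAt_x hf x y)]
    · have := hf.per1 (0, y)
      simp only [Prod.mk_add_mk, zero_add, add_zero] at this
      rw [this, sub_self]
    · exact ((hf.hD _).continuous.comp (by fun_prop)).intervalIntegrable _ _
  simp [this]

lemma mean_D2 {f : ℝ × ℝ → ℂ} (hf : SP f) : mean (D2 f) = 0 := by
  rw [mean_prod (hf.hD _).continuous]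
  have : ∀ x : ℝ, ∫ y in (0 : ℝ)..1, D2 f (x, y) = 0 := by
    intro x
    rw [intervalIntegral.integral_eq_sub_of_hasDerivAt (f := fun s => f (x, s))
      (fun y _ => hasDerivAt_y hf x y)]
    · have := hf.per2 (x, 0)
      simp only [Prod.mk_add_mk, zero_add, add_zero] at this
      rw [this, sub_self]
    · exact ((hf.hD _).continuous.comp (by fun_prop)).intervalIntegrable _ _
  simp [this]

/-! ### The `L²` norm -/

/-- `L²` norm over the unit square -/
noncomputable def N (f : ℝ × ℝ → ℂ) : ℝ := (eLpNorm f 2 μQ).toReal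

lemma N_nonneg (f : ℝ × ℝ → ℂ) : 0 ≤ N f := ENNReal.toReal_nonneg

lemma N_add {f g : ℝ × ℝ → ℂ} (hf : Continuous f) (hg : Continuous g) :
    N (fun p => f p + g p) ≤ N f + N g := by
  unfold N
  rw [← ENNReal.toReal_add (memLp_of_continuous hf 2).2.ne (memLp_of_continuous hg 2).2.ne]
  exact ENNReal.toReal_mono (ENNReal.add_ne_top.2 ⟨(memLp_of_continuous hf 2).2.ne,
    (memLp_of_continuous hg 2).2.ne⟩)
    (eLpNorm_add_le hf.aestronglyMeasurable hg.aestronglyMeasurable (by norm_num))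

lemma N_sq {f : ℝ × ℝ → ℂ} (hf : Continuous f) : N f ^ 2 = ∫ p, ‖f p‖ ^ 2 ∂μQ := by
  unfold N
  have h := (memLp_of_continuous hf 2).eLpNorm_eq_integral_rpow_norm (by norm_num) (by norm_num)
  rw [h]
  have h0 : 0 ≤ ∫ a, ‖f a‖ ^ (2 : ℝ) ∂μQ := integral_nonneg fun a => by positivity
  have e : (2 : ℝ≥0∞).toReal = 2 := by simp
  rw [e]
  rw [ENNReal.toReal_ofReal (by positivity)]
  rw [← Real.rpow_natCast, ← Real.rpow_mul h0]
  norm_num

lemma N_mono {f g : ℝ × ℝ → ℂ} (_hf : Continuous f) (hg : Continuous g)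
    (h : ∀ p, ‖f p‖ ≤ ‖g p‖) : N f ≤ N g := by
  unfold N
  exact ENNReal.toReal_mono (memLp_of_continuous hg 2).2.ne (eLpNorm_mono h)

lemma N_const_mul {f : ℝ × ℝ → ℂ} (c : ℂ) : N (fun p => c * f p) = ‖c‖ * N f := by
  unfold N
  have : (fun p => c * f p) = c • f := rfl
  rw [this, eLpNorm_const_smul, ENNReal.toReal_mul]
  simp

lemma N_mul_le {f μ : ℝ × ℝ → ℂ} (hf : Continuous f) (hμ : Continuous μ) {k : ℝ} (hk : 0 ≤ k)
    (h : ∀ p, ‖μ p‖ ≤ k) : N (fun p => μ p * f p) ≤ k * N f := by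
  have h1 : N (fun p => μ p * f p) ≤ N (fun p => (k : ℂ) * f p) := by
    refine N_mono (by fun_prop) (by fun_prop) fun p => ?_
    rw [norm_mul, norm_mul]
    refine mul_le_mul_of_nonneg_right ?_ (norm_nonneg _)
    simpa [abs_of_nonneg hk] using h p
  refine h1.trans ?_
  rw [N_const_mul]
  simp [abs_of_nonneg hk]

lemma N_const (c : ℂ) : N (fun _ => c) = ‖c‖ := by
  have h := N_sq (f := fun _ => c) continuous_const
  simp only [integral_const, probReal_univ, smul_eq_mul, one_mul] at h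
  exact (sq_eq_sq₀ (N_nonneg _) (norm_nonneg _)).1 h

lemma N_le_of_bound {f : ℝ × ℝ → ℂ} (hf : Continuous f) {M : ℝ} (h : ∀ p, ‖f p‖ ≤ M) :
    N f ≤ M := by
  have hM : 0 ≤ M := (norm_nonneg _).trans (h 0)
  have := N_mono hf (continuous_const (y := (M : ℂ))) (fun p => by
    simpa [abs_of_nonneg hM] using h p)
  rw [N_const] at this
  simpa [abs_of_nonneg hM] using this

lemma integral_norm_le_N {f : ℝ × ℝ → ℂ} (hf : Continuous f) : ∫ p, ‖f p‖ ∂μQ ≤ N f := by
  have h1 : eLpNorm f 1 μQ ≤ eLpNorm f 2 μQ :=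
    eLpNorm_le_eLpNorm_of_exponent_le (by norm_num) hf.aestronglyMeasurable
  have h2 := ENNReal.toReal_mono (memLp_of_continuous hf 2).2.ne h1
  rw [eLpNorm_one_eq_lintegral_enorm, ← integral_norm_eq_lintegral_enorm
    hf.aestronglyMeasurable] at h2
  exact h2

lemma norm_mean_le_N {f : ℝ × ℝ → ℂ} (hf : Continuous f) : ‖mean f‖ ≤ N f :=
  (norm_integral_le_integral_norm f).trans (integral_norm_le_N hf)

/-- Pythagoras for constants and mean zero functions -/
lemma N_sq_const_add {f : ℝ × ℝ → ℂ} (hf : Continuous f) (h0 : mean f = 0) (c : ℂ) :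
    N (fun p => c + f p) ^ 2 = ‖c‖ ^ 2 + N f ^ 2 := by
  rw [N_sq (by fun_prop), N_sq hf]
  have e : ∀ p, ‖c + f p‖ ^ 2 = ‖c‖ ^ 2 + ‖f p‖ ^ 2 + 2 * (conj c * f p).re := by
    intro p
    rw [← Complex.normSq_eq_norm_sq, ← Complex.normSq_eq_norm_sq, ← Complex.normSq_eq_norm_sq,
      Complex.normSq_add]
    simp only [Complex.mul_re, Complex.conj_re, Complex.conj_im]
    ring
  simp_rw [e]
  have i1 : Integrable (fun p => ‖f p‖ ^ 2) μQ := integrable_of_continuous (by fun_prop)
  have i2 : Integrable (fun p => (conj c * f p)) μQ := integrable_of_continuous (by fun_prop)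
  have i3 : Integrable (fun p => 2 * (conj c * f p).re) μQ :=
    integrable_of_continuous (by fun_prop)
  rw [integral_add (by fun_prop) i3, integral_add (by fun_prop) i1]
  have : ∫ p, (2 * (conj c * f p).re) ∂μQ = 0 := by
    rw [integral_const_mul]
    have h := integral_re i2
    simp only [RCLike.re_eq_complex_re] at h
    rw [h, integral_const_mul]
    have : ∫ p, f p ∂μQ = 0 := h0
    rw [this]
    simp
  rw [this]
  simp

lemma N_sub_mean_le {f : ℝ × ℝ → ℂ} (hf : Continuous f) :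
    N (fun p => f p - mean f) ≤ N f := by
  have h := N_sq_const_add (f := fun p => f p - mean f) (by fun_prop)
    (by rw [mean_sub hf continuous_const, mean_const, sub_self]) (mean f)
  have e : (fun p => mean f + (f p - mean f)) = f := by ext p; ring
  rw [e] at h
  have : N (fun p => f p - mean f) ^ 2 ≤ N f ^ 2 := by nlinarith [sq_nonneg ‖mean f‖]
  exact (sq_le_sq₀ (N_nonneg _) (N_nonneg _)).1 this

end KB
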