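import Pool.Agent.Helper63.KB.Dz

/-!
# Sobolev norms and series of smooth doubly periodic functions
-/

open Real MeasureTheory Set
open scoped ContDiff ENNReal ComplexConjugate

namespace KB

/-- Sobolev type norms (sums of the `L²` norms of all iterated derivatives of order `≤ s`) -/
noncomputable def A : ℕ → (ℝ × ℝ → ℂ) → ℝ
  | 0, f => N f
  | (s + 1), f => N f + (A s (D1 f) + A s (D2 f))

variable {f g : ℝ × ℝ → ℂ}

lemma A_nonneg (s : ℕ) (f : ℝ × ℝ → ℂ) : 0 ≤ A s f := by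
  induction s generalizing f with
  | zero => exact N_nonneg f
  | succ s ih => exact add_nonneg (N_nonneg f) (add_nonneg (ih _) (ih _))

lemma N_le_A (s : ℕ) (f : ℝ × ℝ → ℂ) : N f ≤ A s f := by
  cases s with
  | zero => exact le_rfl
  | succ s =>
    have := A_nonneg s (D1 f)
    have := A_nonneg s (D2 f)
    simp only [A]
    linarith

lemma A_D1_le (s : ℕ) (f : ℝ × ℝ → ℂ) : A s (D1 f) ≤ A (s + 1) f := by
  have := A_nonneg s (D2 f)
  have := N_nonneg f
  simp only [A]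
  linarith

lemma A_D2_le (s : ℕ) (f : ℝ × ℝ → ℂ) : A s (D2 f) ≤ A (s + 1) f := by
  have := A_nonneg s (D1 f)
  have := N_nonneg f
  simp only [A]
  linarith

lemma A_le_succ (s : ℕ) (f : ℝ × ℝ → ℂ) : A s f ≤ A (s + 1) f := by
  induction s generalizing f with
  | zero => exact N_le_A 1 f
  | succ s ih =>
    have h1 := ih (D1 f)
    have h2 := ih (D2 f)
    calc A (s + 1) f = N f + (A s (D1 f) + A s (D2 f)) := rfl
      _ ≤ N f + (A (s + 1) (D1 f) + A (s + 1) (D2 f)) := by linarith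
      _ = A (s + 1 + 1) f := rfl

lemma norm_le_A2 (hf : SP f) (p : ℝ × ℝ) : ‖f p‖ ≤ A 2 f := by
  have h := sobolev hf p
  have := N_nonneg (D1 (D1 f))
  have := N_nonneg (D1 (D2 f))
  have := N_nonneg (D2 (D2 f))
  simp only [A]
  linarith

lemma A_add (s : ℕ) (hf : SP f) (hg : SP g) : A s (fun p => f p + g p) ≤ A s f + A s g := by
  induction s generalizing f g with
  | zero => exact N_add hf.continuous hg.continuous
  | succ s ih =>
    simp only [A]
    have h1 := ih (hf.hD (1, 0)) (hg.hD (1, 0))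
    have h2 := ih (hf.hD (0, 1)) (hg.hD (0, 1))
    have h3 := N_add hf.continuous hg.continuous
    rw [← D_add _ hf hg] at h1 h2
    linarith

lemma A_const_mul (s : ℕ) (hf : SP f) (c : ℂ) : A s (fun p => c * f p) = ‖c‖ * A s f := by
  induction s generalizing f with
  | zero => exact N_const_mul c
  | succ s ih =>
    simp only [A]
    have h1 := ih (hf.hD (1, 0))
    have h2 := ih (hf.hD (0, 1))
    rw [← D_const_mul _ hf] at h1 h2
    rw [h1, h2, N_const_mul]
    ring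

lemma A_sub (s : ℕ) (hf : SP f) (hg : SP g) : A s (fun p => f p - g p) ≤ A s f + A s g := by
  have h := A_add s hf (hg.const_mul (-1))
  rw [A_const_mul s hg] at h
  have e : (fun p => f p - g p) = fun p => f p + (-1) * g p := by ext p; ring
  rw [e]
  simpa using h

lemma A_mul (s : ℕ) (hf : SP f) : ∃ C, 0 ≤ C ∧ ∀ g, SP g → A s (fun p => f p * g p) ≤ C * A s g := by
  induction s generalizing f with
  | zero =>
    obtain ⟨M, hM, h⟩ := hf.bounded
    exact ⟨M, hM, fun g hg => N_mul_le hg.continuous hf.continuous hM h⟩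
  | succ s ih =>
    obtain ⟨M, hM, h⟩ := hf.bounded
    obtain ⟨C, hC, h0⟩ := ih hf
    obtain ⟨C1, hC1, h1⟩ := ih (hf.hD (1, 0))
    obtain ⟨C2, hC2, h2⟩ := ih (hf.hD (0, 1))
    refine ⟨M + C + C1 + C2, by positivity, fun g hg => ?_⟩
    have e0 := N_mul_le hg.continuous hf.continuous hM h
    have e1 := A_add s ((hf.hD (1, 0)).mul hg) (hf.mul (hg.hD (1, 0)))
    have e2 := A_add s ((hf.hD (0, 1)).mul hg) (hf.mul (hg.hD (0, 1)))
    rw [← D_mul _ hf hg] at e1 e2
    have e3 := h1 g hg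
    have e4 := h2 g hg
    have e5 := h0 _ (hg.hD (1, 0))
    have e6 := h0 _ (hg.hD (0, 1))
    have e7 := A_le_succ s g
    have e8 := A_nonneg s (D1 g)
    have e9 := A_nonneg s (D2 g)
    have e10 := N_nonneg g
    have e11 := A_nonneg (s + 1) g
    have e12 : A (s + 1) g = N g + (A s (D1 g) + A s (D2 g)) := rfl
    have e13 : M * N g ≤ M * A (s + 1) g := mul_le_mul_of_nonneg_left (by linarith) hM
    have e14 : C1 * A s g ≤ C1 * A (s + 1) g := mul_le_mul_of_nonneg_left e7 hC1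
    have e15 : C2 * A s g ≤ C2 * A (s + 1) g := mul_le_mul_of_nonneg_left e7 hC2
    have e16 : C * (A s (D1 g) + A s (D2 g)) ≤ C * A (s + 1) g :=
      mul_le_mul_of_nonneg_left (by linarith) hC
    calc A (s + 1) (fun p => f p * g p)
        = N (fun p => f p * g p) + (A s (D1 (fun p => f p * g p)) + A s (D2 (fun p => f p * g p))) :=
          rfl
      _ ≤ (M + C + C1 + C2) * A (s + 1) g := by linarith

lemma clm_norm_le (L : ℝ × ℝ →L[ℝ] ℂ) : ‖L‖ ≤ ‖L (1, 0)‖ + ‖L (0, 1)‖ := by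
  refine L.opNorm_le_bound (by positivity) fun v => ?_
  have e : L v = (v.1 : ℂ) * L (1, 0) + (v.2 : ℂ) * L (0, 1) := by
    have : v = v.1 • ((1 : ℝ), (0 : ℝ)) + v.2 • ((0 : ℝ), (1 : ℝ)) := by ext <;> simp
    conv_lhs => rw [this]
    rw [map_add, map_smul, map_smul]
    simp
  rw [e]
  have h1 : |v.1| ≤ ‖v‖ := norm_fst_le v
  have h2 : |v.2| ≤ ‖v‖ := norm_snd_le v
  calc ‖(v.1 : ℂ) * L (1, 0) + (v.2 : ℂ) * L (0, 1)‖
      ≤ ‖(v.1 : ℂ) * L (1, 0)‖ + ‖(v.2 : ℂ) * L (0, 1)‖ := norm_add_le _ _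
    _ = |v.1| * ‖L (1, 0)‖ + |v.2| * ‖L (0, 1)‖ := by simp
    _ ≤ ‖v‖ * ‖L (1, 0)‖ + ‖v‖ * ‖L (0, 1)‖ := by gcongr
    _ = _ := by ring

/-- A family of smooth periodic functions with summable Sobolev norms. -/
structure Fam {ι : Type*} (T : ι → ℝ × ℝ → ℂ) : Prop where
  sp : ∀ i, SP (T i)
  sum : ∀ s, Summable fun i => A s (T i)

namespace Fam

variable {ι : Type*} {T : ι → ℝ × ℝ → ℂ}

lemma D1 (h : Fam T) : Fam (fun i => D1 (T i)) :=
  ⟨fun i => (h.sp i).hD _, fun s => (h.sum (s + 1)).of_nonneg_of_le (fun i => A_nonneg _ _)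
    fun i => A_D1_le s (T i)⟩

lemma D2 (h : Fam T) : Fam (fun i => D2 (T i)) :=
  ⟨fun i => (h.sp i).hD _, fun s => (h.sum (s + 1)).of_nonneg_of_le (fun i => A_nonneg _ _)
    fun i => A_D2_le s (T i)⟩

lemma summable (h : Fam T) (p : ℝ × ℝ) : Summable fun i => T i p :=
  (h.sum 2).of_norm_bounded fun i => norm_le_A2 (h.sp i) p

lemma norm_tsum_le (h : Fam T) (p : ℝ × ℝ) : ‖∑' i, T i p‖ ≤ ∑' i, A 2 (T i) :=
  tsum_of_norm_bounded (h.sum 2).hasSum fun i => norm_le_A2 (h.sp i) p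

lemma norm_fderiv_le (h : Fam T) (i : ι) (p : ℝ × ℝ) :
    ‖fderiv ℝ (T i) p‖ ≤ A 2 (KB.D1 (T i)) + A 2 (KB.D2 (T i)) :=
  (clm_norm_le _).trans (add_le_add (norm_le_A2 ((h.sp i).hD _) p) (norm_le_A2 ((h.sp i).hD _) p))

lemma hasFDerivAt (h : Fam T) (p : ℝ × ℝ) :
    HasFDerivAt (fun q => ∑' i, T i q) (∑' i, fderiv ℝ (T i) p) p :=
  hasFDerivAt_tsum ((h.D1.sum 2).add (h.D2.sum 2))
    (fun i q => ((h.sp i).differentiable q).hasFDerivAt) (fun i q => h.norm_fderiv_le i q)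
    (h.summable p) p

lemma D_tsum (h : Fam T) (v : ℝ × ℝ) :
    D v (fun q => ∑' i, T i q) = fun p => ∑' i, D v (T i) p := by
  ext p
  simp only [D]
  rw [(h.hasFDerivAt p).fderiv]
  have hs : Summable fun i => fderiv ℝ (T i) p :=
    ((h.D1.sum 2).add (h.D2.sum 2)).of_norm_bounded fun i => h.norm_fderiv_le i p
  exact (ContinuousLinearMap.apply ℝ ℂ v).map_tsum hs

lemma contDiff_nat (n : ℕ) : ∀ {T : ι → ℝ × ℝ → ℂ}, Fam T → ContDiff ℝ n (fun q => ∑' i, T i q) := by
  induction n with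
  | zero =>
    intro T h
    exact contDiff_zero.2 (continuous_iff_continuousAt.2 fun p => (h.hasFDerivAt p).continuousAt)
  | succ n ih =>
    intro T h
    have hd : Differentiable ℝ (fun q => ∑' i, T i q) := fun p => (h.hasFDerivAt p).differentiableAt
    rw [show ((n + 1 : ℕ) : WithTop ℕ∞) = (n : WithTop ℕ∞) + 1 by push_cast; rfl]
    rw [contDiff_succ_iff_fderiv]
    refine ⟨hd, by simp, ?_⟩
    have e : fderiv ℝ (fun q => ∑' i, T i q) = fun p =>
        (ContinuousLinearMap.fst ℝ ℝ ℝ).smulRight (∑' i, KB.D1 (T i) p) +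
        (ContinuousLinearMap.snd ℝ ℝ ℝ).smulRight (∑' i, KB.D2 (T i) p) := by
      ext p v
      · have := congrFun (h.D_tsum (1, 0)) p
        simp only [D] at this
        simp [KB.D1, D, this]
      · have := congrFun (h.D_tsum (0, 1)) p
        simp only [D] at this
        simp [KB.D2, D, this]
    rw [e]
    have i1 := ih h.D1
    have i2 := ih h.D2
    have k1 : ContDiff ℝ n (fun p => (ContinuousLinearMap.fst ℝ ℝ ℝ).smulRight (∑' i, KB.D1 (T i) p)) :=
      ((ContinuousLinearMap.smulRightL ℝ (ℝ × ℝ) ℂ (ContinuousLinearMap.fst ℝ ℝ ℝ)).contDiff).comp i1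
    have k2 : ContDiff ℝ n (fun p => (ContinuousLinearMap.snd ℝ ℝ ℝ).smulRight (∑' i, KB.D2 (T i) p)) :=
      ((ContinuousLinearMap.smulRightL ℝ (ℝ × ℝ) ℂ (ContinuousLinearMap.snd ℝ ℝ ℝ)).contDiff).comp i2
    exact k1.add k2

lemma spSum (h : Fam T) : SP (fun q => ∑' i, T i q) := by
  refine ⟨contDiff_infty.2 fun n => contDiff_nat n h, fun p => ?_, fun p => ?_⟩
  · exact tsum_congr fun i => (h.sp i).per1 p
  · exact tsum_congr fun i => (h.sp i).per2 p

lemma dz_tsum (h : Fam T) : dz (fun q => ∑' i, T i q) = fun p => ∑' i, dz (T i) p := by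
  ext p
  simp only [dz, KB.D1, KB.D2]
  rw [h.D_tsum, h.D_tsum]
  simp only
  rw [tsum_mul_left, Summable.tsum_sub (h.D1.summable p) ((h.D2.summable p).mul_left _),
    tsum_mul_left]

lemma dzb_tsum (h : Fam T) : dzb (fun q => ∑' i, T i q) = fun p => ∑' i, dzb (T i) p := by
  ext p
  simp only [dzb, KB.D1, KB.D2]
  rw [h.D_tsum, h.D_tsum]
  simp only
  rw [tsum_mul_left, Summable.tsum_add (h.D1.summable p) ((h.D2.summable p).mul_left _),
    tsum_mul_left]

lemma mean_tsum (h : Fam T) [Countable ι] :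
    HasSum (fun i => mean (T i)) (mean (fun q => ∑' i, T i q)) := by
  refine hasSum_integral_of_summable_integral_norm
    (fun i => integrable_of_continuous (h.sp i).continuous) ?_
  refine (h.sum 0).of_nonneg_of_le (fun i => integral_nonneg fun p => norm_nonneg _) fun i => ?_
  exact integral_norm_le_N (h.sp i).continuous

/-- weighted families -/
lemma weight (h : Fam T) {c : ι → ℂ} (hc : ∀ i, ‖c i‖ ≤ 1) : Fam (fun i p => c i * T i p) :=
  ⟨fun i => (h.sp i).const_mul _, fun s => (h.sum s).of_nonneg_of_le (fun i => A_nonneg _ _)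
    fun i => by
      rw [A_const_mul s (h.sp i)]
      have := A_nonneg s (T i)
      nlinarith [hc i]⟩

lemma of_le {T : ι → ℝ × ℝ → ℂ} (h : ∀ i, SP (T i)) {u : ℕ → ι → ℝ} (hu : ∀ s, Summable (u s))
    (hle : ∀ s i, A s (T i) ≤ u s i) : Fam T :=
  ⟨h, fun s => (hu s).of_nonneg_of_le (fun i => A_nonneg _ _) (hle s)⟩

end Fam

end KB
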