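import Pool.Agent.Helper63.KB.Fourier

/-!
# Solving `∂̄ Φ = f - mean f` on the torus
-/

open Real MeasureTheory Set
open scoped ContDiff ENNReal ComplexConjugate

namespace KB

variable {f g : ℝ × ℝ → ℂ}

/-- summable weight on `ℤ × ℤ` -/
noncomputable def wt (k : ℤ × ℤ) : ℝ := (1 / (1 + (k.1 : ℝ) ^ 2)) * (1 / (1 + (k.2 : ℝ) ^ 2))

lemma wt_nonneg (k : ℤ × ℤ) : 0 ≤ wt k := by unfold wt; positivity

lemma summable_one_div_one_add_sq : Summable fun n : ℤ => 1 / (1 + (n : ℝ) ^ 2) := by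
  have h : Summable fun n : ℤ => 1 / (n : ℝ) ^ 2 := Real.summable_one_div_int_pow.2 (by norm_num)
  refine Summable.of_norm_bounded_eventually (g := fun n : ℤ => 1 / (n : ℝ) ^ 2) h ?_
  have : ∀ᶠ n : ℤ in Filter.cofinite, n ≠ 0 := by
    simpa using (Set.finite_singleton (0 : ℤ)).compl_mem_cofinite
  filter_upwards [this] with n hn
  have hn' : (0 : ℝ) < (n : ℝ) ^ 2 := by positivity
  rw [Real.norm_of_nonneg (by positivity)]
  exact one_div_le_one_div_of_le hn' (by linarith)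

lemma summable_wt : Summable wt :=
  summable_one_div_one_add_sq.mul_of_nonneg summable_one_div_one_add_sq
    (fun n => by positivity) (fun n => by positivity)

/-- the constant -/
noncomputable def W0 : ℝ := ∑' k, wt k

lemma W0_nonneg : 0 ≤ W0 := tsum_nonneg wt_nonneg

lemma norm_ck_le_wt (hf : SP f) (k : ℤ × ℤ) : ‖ck f k‖ ≤ 4 * A 4 f * wt k := by
  have s1 : SP (fun p => f p - D1 (D1 f) p) := hf.sub ((hf.hD _).hD _)
  have s2 : SP (fun p => (fun p => f p - D1 (D1 f) p) p - D2 (D2 (fun p => f p - D1 (D1 f) p)) p) :=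
    s1.sub ((s1.hD _).hD _)
  have cksub : ∀ {u v : ℝ × ℝ → ℂ}, SP u → SP v →
      ck (fun p => u p - v p) k = ck u k - ck v k := by
    intro u v hu hv
    unfold ck
    rw [← mean_sub ((ek_sp _).mul hu).continuous ((ek_sp _).mul hv).continuous]
    congr 1
    ext p; ring
  have e1 : ck (fun p => f p - D1 (D1 f) p) k = (1 + 4 * π ^ 2 * k.1 ^ 2) * ck f k := by
    rw [cksub hf ((hf.hD _).hD _), ck_D1 (hf.hD _), ck_D1 hf]
    linear_combination (-(4 * π ^ 2 * k.1 ^ 2 * ck f k) : ℂ) * Complex.I_sq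
  have e2 : ck (fun p => (fun p => f p - D1 (D1 f) p) p -
      D2 (D2 (fun p => f p - D1 (D1 f) p)) p) k =
      (1 + 4 * π ^ 2 * k.2 ^ 2) * ((1 + 4 * π ^ 2 * k.1 ^ 2) * ck f k) := by
    rw [cksub s1 ((s1.hD _).hD _), ck_D2 (s1.hD _), ck_D2 s1, e1]
    linear_combination (-(4 * π ^ 2 * k.2 ^ 2 * ((1 + 4 * π ^ 2 * k.1 ^ 2) * ck f k)) : ℂ) *
      Complex.I_sq
  have h1 := norm_ck_le s2 k
  rw [e2] at h1
  have nsub : ∀ {u v : ℝ × ℝ → ℂ}, SP u → SP v → N (fun p => u p - v p) ≤ N u + N v :=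
    fun hu hv => A_sub 0 hu hv
  have h2 := nsub s1 ((s1.hD (0, 1)).hD (0, 1))
  have h3 := nsub hf ((hf.hD (1, 0)).hD (1, 0))
  have e3 : D2 (D2 (fun p => f p - D1 (D1 f) p)) =
      fun p => D2 (D2 f) p - D2 (D2 (D1 (D1 f))) p := by
    simp only [D2]
    rw [D_sub _ hf ((hf.hD _).hD _), D_sub _ (hf.hD _) (((hf.hD _).hD _).hD _)]
  have h4 : N (D2 (D2 (fun p => f p - D1 (D1 f) p))) ≤ N (D2 (D2 f)) + N (D2 (D2 (D1 (D1 f)))) := by
    rw [e3]
    exact nsub ((hf.hD _).hD _) ((((hf.hD _).hD _).hD _).hD _)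
  have b1 : N (D2 (D2 (D1 (D1 f)))) ≤ A 4 f :=
    (((A_D2_le 0 _).trans (A_D2_le 1 _)).trans (A_D1_le 2 _)).trans (A_D1_le 3 _)
  have b2 : N (D1 (D1 f)) ≤ A 4 f :=
    (((A_D1_le 0 _).trans (A_D1_le 1 _)).trans (A_le_succ 2 _)).trans (A_le_succ 3 _)
  have b3 : N (D2 (D2 f)) ≤ A 4 f :=
    (((A_D2_le 0 _).trans (A_D2_le 1 _)).trans (A_le_succ 2 _)).trans (A_le_succ 3 _)
  have b4 : N f ≤ A 4 f := N_le_A 4 f
  have e4 : ‖((1 + 4 * π ^ 2 * k.2 ^ 2) * ((1 + 4 * π ^ 2 * k.1 ^ 2) * ck f k) : ℂ)‖ =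
      (1 + 4 * π ^ 2 * (k.2 : ℝ) ^ 2) * ((1 + 4 * π ^ 2 * (k.1 : ℝ) ^ 2) * ‖ck f k‖) := by
    rw [norm_mul, norm_mul]
    have r1 : ((1 + 4 * π ^ 2 * k.2 ^ 2 : ℂ)) = ((1 + 4 * π ^ 2 * (k.2 : ℝ) ^ 2 : ℝ) : ℂ) := by
      push_cast; ring
    have r2 : ((1 + 4 * π ^ 2 * k.1 ^ 2 : ℂ)) = ((1 + 4 * π ^ 2 * (k.1 : ℝ) ^ 2 : ℝ) : ℂ) := by
      push_cast; ring
    rw [r1, r2, Complex.norm_real, Complex.norm_real, Real.norm_of_nonneg (by positivity),
      Real.norm_of_nonneg (by positivity)]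
  rw [e4] at h1
  have h5 : (1 + 4 * π ^ 2 * (k.2 : ℝ) ^ 2) * ((1 + 4 * π ^ 2 * (k.1 : ℝ) ^ 2) * ‖ck f k‖) ≤
      4 * A 4 f := by linarith
  have hpi : 1 ≤ 4 * π ^ 2 := by nlinarith [Real.pi_gt_three]
  have w1 : (1 + (k.1 : ℝ) ^ 2) ≤ 1 + 4 * π ^ 2 * (k.1 : ℝ) ^ 2 := by nlinarith [sq_nonneg (k.1 : ℝ)]
  have w2 : (1 + (k.2 : ℝ) ^ 2) ≤ 1 + 4 * π ^ 2 * (k.2 : ℝ) ^ 2 := by nlinarith [sq_nonneg (k.2 : ℝ)]
  have h6 : (1 + (k.2 : ℝ) ^ 2) * ((1 + (k.1 : ℝ) ^ 2) * ‖ck f k‖) ≤ 4 * A 4 f := by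
    refine le_trans ?_ h5
    gcongr
  unfold wt
  rw [← sub_nonneg] at h6 ⊢
  have h7 : 4 * A 4 f * (1 / (1 + (k.1 : ℝ) ^ 2) * (1 / (1 + (k.2 : ℝ) ^ 2))) - ‖ck f k‖ =
      (4 * A 4 f - (1 + (k.2 : ℝ) ^ 2) * ((1 + (k.1 : ℝ) ^ 2) * ‖ck f k‖)) /
        ((1 + (k.1 : ℝ) ^ 2) * (1 + (k.2 : ℝ) ^ 2)) := by
    field_simp
  rw [h7]
  positivity

lemma summable_ck (hf : SP f) : Summable (ck f) :=
  (summable_wt.mul_left (4 * A 4 f)).of_norm_bounded fun k => norm_ck_le_wt hf k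

/-- Fourier coefficients of the solution of `∂̄ Φ = f` -/
noncomputable def bk (f : ℝ × ℝ → ℂ) (k : ℤ × ℤ) : ℂ :=
  if k = 0 then 0 else ck f k / (π * Complex.I * (k.1 + Complex.I * k.2))

lemma den_norm {k : ℤ × ℤ} (hk : k ≠ 0) : 1 ≤ ‖(π * Complex.I * (k.1 + Complex.I * k.2) : ℂ)‖ := by
  have h1 : ‖((k.1 : ℂ) + Complex.I * k.2)‖ ^ 2 = (k.1 : ℝ) ^ 2 + (k.2 : ℝ) ^ 2 := by
    have : ((k.1 : ℂ) + Complex.I * k.2) = ((k.1 : ℝ) : ℂ) + ((k.2 : ℝ) : ℂ) * Complex.I := by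
      push_cast; ring
    rw [this, ← Complex.normSq_eq_norm_sq, Complex.normSq_add_mul_I]
  have h2 : (1 : ℝ) ≤ (k.1 : ℝ) ^ 2 + (k.2 : ℝ) ^ 2 := by
    have h3 : 0 < k.1 ^ 2 + k.2 ^ 2 := by
      rcases eq_or_ne k.1 0 with h | h
      · have : k.2 ≠ 0 := fun h' => hk (Prod.ext h h')
        positivity
      · positivity
    have h4 : 1 ≤ k.1 ^ 2 + k.2 ^ 2 := h3
    exact_mod_cast h4
  have h3 : 1 ≤ ‖((k.1 : ℂ) + Complex.I * k.2)‖ := by
    by_contra h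
    push Not at h
    nlinarith [norm_nonneg ((k.1 : ℂ) + Complex.I * k.2)]
  rw [norm_mul, norm_mul, Complex.norm_I, mul_one, Complex.norm_real,
    Real.norm_of_nonneg Real.pi_pos.le]
  nlinarith [Real.pi_gt_three]

lemma norm_bk_le (f : ℝ × ℝ → ℂ) (k : ℤ × ℤ) : ‖bk f k‖ ≤ ‖ck f k‖ := by
  unfold bk
  split_ifs with h
  · simp
  · rw [norm_div]
    exact div_le_self (norm_nonneg _) (den_norm h)

lemma bk_D1 (hf : SP f) (k : ℤ × ℤ) : bk (D1 f) k = (2 * π * Complex.I * k.1) * bk f k := by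
  unfold bk
  split_ifs with h
  · simp
  · rw [ck_D1 hf, mul_div_assoc]

lemma bk_D2 (hf : SP f) (k : ℤ × ℤ) : bk (D2 f) k = (2 * π * Complex.I * k.2) * bk f k := by
  unfold bk
  split_ifs with h
  · simp
  · rw [ck_D2 hf, mul_div_assoc]

lemma bkek_sp (f : ℝ × ℝ → ℂ) (k : ℤ × ℤ) : SP (fun p => bk f k * ek k p) := (ek_sp k).const_mul _

lemma D1_bkek (hf : SP f) (k : ℤ × ℤ) :
    D1 (fun p => bk f k * ek k p) = fun p => bk (D1 f) k * ek k p := by
  rw [D1, D_const_mul _ (ek_sp k), bk_D1 hf]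
  have := D1_ek k
  simp only [D1] at this
  rw [this]
  ext p; ring

lemma D2_bkek (hf : SP f) (k : ℤ × ℤ) :
    D2 (fun p => bk f k * ek k p) = fun p => bk (D2 f) k * ek k p := by
  rw [D2, D_const_mul _ (ek_sp k), bk_D2 hf]
  have := D2_ek k
  simp only [D2] at this
  rw [this]
  ext p; ring

lemma N_bkek (f : ℝ × ℝ → ℂ) (k : ℤ × ℤ) : N (fun p => bk f k * ek k p) = ‖bk f k‖ := by
  rw [N_const_mul, N_ek, mul_one]

lemma summable_bk (hf : SP f) : Summable fun k => ‖bk f k‖ :=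
  (summable_ck hf).norm.of_nonneg_of_le (fun k => norm_nonneg _) fun k => norm_bk_le f k

lemma bkek_fam (hf : SP f) : Fam (fun k p => bk f k * ek k p) := by
  refine ⟨bkek_sp f, fun s => ?_⟩
  induction s generalizing f with
  | zero =>
    simp only [A, N_bkek]
    exact summable_bk hf
  | succ s ih =>
    simp only [A, D1_bkek hf, D2_bkek hf, N_bkek]
    exact (summable_bk hf).add ((ih (hf.hD _)).add (ih (hf.hD _)))

/-- The solution of `∂̄ Φ = f - mean f`. -/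
noncomputable def Sol (f : ℝ × ℝ → ℂ) : ℝ × ℝ → ℂ := fun p => ∑' k, bk f k * ek k p

lemma Sol_sp (hf : SP f) : SP (Sol f) := (bkek_fam hf).spSum

lemma D1_Sol (hf : SP f) : D1 (Sol f) = Sol (D1 f) := by
  have h := (bkek_fam hf).D_tsum (1, 0)
  unfold Sol
  rw [D1, h]
  ext p
  refine tsum_congr fun k => ?_
  exact congrFun (D1_bkek hf k) p

lemma D2_Sol (hf : SP f) : D2 (Sol f) = Sol (D2 f) := by
  have h := (bkek_fam hf).D_tsum (0, 1)
  unfold Sol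
  rw [D2, h]
  ext p
  refine tsum_congr fun k => ?_
  exact congrFun (D2_bkek hf k) p

lemma dzb_Sol (hf : SP f) : dzb (Sol f) = fun p => f p - mean f := by
  have h := (bkek_fam hf).dzb_tsum
  unfold Sol
  rw [h]
  ext p
  have e : ∀ k, dzb (fun p => bk f k * ek k p) p = if k = 0 then 0 else ck f k * ek k p := by
    intro k
    simp only [dzb]
    rw [D1_bkek hf, D2_bkek hf]
    simp only [bk_D1 hf, bk_D2 hf]
    unfold bk
    split_ifs with hk
    · simp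
    · have hden : (π * Complex.I * (k.1 + Complex.I * k.2) : ℂ) ≠ 0 := by
        intro h0
        have := den_norm hk
        rw [h0] at this
        simp at this
        linarith
      have hd2 : ((k.1 : ℂ) + Complex.I * k.2) ≠ 0 := fun h0 => hden (by rw [h0, mul_zero])
      have hpi : (π : ℂ) ≠ 0 := by exact_mod_cast Real.pi_ne_zero
      have hI : Complex.I ≠ 0 := Complex.I_ne_zero
      have e3 : (1 / 2 : ℂ) * (2 * π * Complex.I * k.1 * (ck f k / (π * Complex.I * (k.1 + Complex.I * k.2))) * ek k p +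
          Complex.I * (2 * π * Complex.I * k.2 * (ck f k / (π * Complex.I * (k.1 + Complex.I * k.2))) * ek k p)) =
          (π * Complex.I * (k.1 + Complex.I * k.2)) * (ck f k / (π * Complex.I * (k.1 + Complex.I * k.2))) * ek k p := by
        ring
      rw [e3, mul_div_cancel₀ _ hden]
  simp_rw [e]
  have h1 := hasSum_ck hf (summable_ck hf) p
  have h2 : HasSum (fun k : ℤ × ℤ => if k = 0 then ck f 0 * ek 0 p else 0) (ck f 0 * ek 0 p) := by
    exact hasSum_ite_eq 0 _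
  have h3 := h1.sub h2
  have h4 : (fun k : ℤ × ℤ => ck f k * ek k p - if k = 0 then ck f 0 * ek 0 p else 0) =
      fun k => if k = 0 then 0 else ck f k * ek k p := by
    ext k
    split_ifs with hk
    · rw [hk]; simp
    · simp
  rw [h4] at h3
  rw [h3.tsum_eq, ck_zero]
  congr 1
  unfold ek
  simp

lemma norm_Sol_le (hf : SP f) (p : ℝ × ℝ) : ‖Sol f p‖ ≤ 4 * W0 * A 4 f := by
  have h : HasSum (fun k => 4 * A 4 f * wt k) (4 * A 4 f * W0) := summable_wt.hasSum.mul_left _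
  have := tsum_of_norm_bounded h (f := fun k => bk f k * ek k p) fun k => by
    rw [norm_mul, ek_norm, mul_one]
    exact (norm_bk_le f k).trans (norm_ck_le_wt hf k)
  unfold Sol
  linarith

lemma A_Sol_le (s : ℕ) (hf : SP f) : A s (Sol f) ≤ (s + 1) * (4 * W0) * A (s + 4) f := by
  induction s generalizing f with
  | zero =>
    simp only [A, Nat.cast_zero, zero_add, one_mul]
    exact N_le_of_bound (Sol_sp hf).continuous (norm_Sol_le hf)
  | succ s ih =>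
    have h0 : N (Sol f) ≤ 4 * W0 * A 4 f := N_le_of_bound (Sol_sp hf).continuous (norm_Sol_le hf)
    have h1 := ih (hf.hD (1, 0))
    have h2 := ih (hf.hD (0, 1))
    have e1 := D1_Sol hf
    have e2 := D2_Sol hf
    have h3 : A 4 f ≤ A (s + 1 + 4) f := by
      clear h0 h1 h2 e1 e2 ih
      induction s with
      | zero => exact A_le_succ 4 f
      | succ s ih => exact ih.trans (A_le_succ _ f)
    have h4 : A (s + 1 + 4) f = N f + (A (s + 4) (D1 f) + A (s + 4) (D2 f)) := by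
      rw [show s + 1 + 4 = (s + 4) + 1 by ring]
      rfl
    have h5 : 4 * W0 * A 4 f ≤ 4 * W0 * A (s + 1 + 4) f :=
      mul_le_mul_of_nonneg_left h3 (by have := W0_nonneg; positivity)
    have h6 : ((s : ℝ) + 1) * (4 * W0) * (A (s + 4) (D1 f) + A (s + 4) (D2 f)) ≤
        ((s : ℝ) + 1) * (4 * W0) * A (s + 1 + 4) f := by
      refine mul_le_mul_of_nonneg_left ?_ (by have := W0_nonneg; positivity)
      rw [h4]
      have := N_nonneg f
      linarith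
    calc A (s + 1) (Sol f) = N (Sol f) + (A s (D1 (Sol f)) + A s (D2 (Sol f))) := rfl
      _ = N (Sol f) + (A s (Sol (D1 f)) + A s (Sol (D2 f))) := by rw [e1, e2]
      _ ≤ ((s + 1 : ℕ) + 1) * (4 * W0) * A (s + 1 + 4) f := by push_cast; linarith

/-- The Beurling transform of the torus. -/
noncomputable def Sop (f : ℝ × ℝ → ℂ) : ℝ × ℝ → ℂ := dz (Sol f)

lemma Sop_sp (hf : SP f) : SP (Sop f) := (Sol_sp hf).hdz

lemma N_Sop_le (hf : SP f) : N (Sop f) ≤ N f := by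
  unfold Sop
  rw [N_dz (Sol_sp hf), dzb_Sol hf]
  exact N_sub_mean_le hf.continuous

lemma D1_Sop (hf : SP f) : D1 (Sop f) = Sop (D1 f) := by
  unfold Sop
  rw [D1, D_dz _ (Sol_sp hf)]
  congr 1
  exact D1_Sol hf

lemma D2_Sop (hf : SP f) : D2 (Sop f) = Sop (D2 f) := by
  unfold Sop
  rw [D2, D_dz _ (Sol_sp hf)]
  congr 1
  exact D2_Sol hf

lemma A_Sop_le (s : ℕ) (hf : SP f) : A s (Sop f) ≤ A s f := by
  induction s generalizing f with
  | zero => exact N_Sop_le hf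
  | succ s ih =>
    have h0 := N_Sop_le hf
    have h1 := ih (hf.hD (1, 0))
    have h2 := ih (hf.hD (0, 1))
    calc A (s + 1) (Sop f) = N (Sop f) + (A s (D1 (Sop f)) + A s (D2 (Sop f))) := rfl
      _ = N (Sop f) + (A s (Sop (D1 f)) + A s (Sop (D2 f))) := by rw [D1_Sop hf, D2_Sop hf]
      _ ≤ N f + (A s (D1 f) + A s (D2 f)) := by linarith
      _ = A (s + 1) f := rfl

end KB
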