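import Pool.Agent.Helper63.KB.WMap
import Pool.Agent.Helper63.KB.Bij

/-!
# Uniformization of the Klein bottle
-/

open Real MeasureTheory Set Filter
open scoped ContDiff ComplexConjugate Topology

namespace KB

section

variable (g : RMetric) (κ : ℝ) (Φ : ℝ × ℝ → ℂ)

/-- the complex valued uniformizing map -/
noncomputable def wC (p : ℝ × ℝ) : ℂ :=
  ((p.1 : ℂ) + p.2 * Complex.I) + κ * conj ((p.1 : ℂ) + p.2 * Complex.I) + Φ p

/-- the real form of the uniformizing map -/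
noncomputable def wR (p : ℝ × ℝ) : ℝ × ℝ := ((wC κ Φ p).re, (wC κ Φ p).im)

/-- the conformal factor in the source coordinates -/
noncomputable def hh (p : ℝ × ℝ) : ℝ := √(g.den p / 4) / ‖1 + dz Φ p‖

variable {g κ Φ}

lemma wC_smooth (hΦ : SP Φ) : ContDiff ℝ ∞ (wC κ Φ) := by
  have h1 : ContDiff ℝ ∞ (fun p : ℝ × ℝ => (p.1 : ℂ)) :=
    Complex.ofRealCLM.contDiff.comp contDiff_fst
  have h2 : ContDiff ℝ ∞ (fun p : ℝ × ℝ => (p.2 : ℂ)) :=
    Complex.ofRealCLM.contDiff.comp contDiff_snd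
  have h3 : ContDiff ℝ ∞ (fun p : ℝ × ℝ => (p.1 : ℂ) + p.2 * Complex.I) :=
    h1.add (h2.mul contDiff_const)
  exact (h3.add (contDiff_const.mul (Complex.conjCLE.contDiff.comp h3))).add hΦ.smooth

lemma wR_smooth (hΦ : SP Φ) : ContDiff ℝ ∞ (wR κ Φ) :=
  (Complex.reCLM.contDiff.comp (wC_smooth hΦ)).prodMk (Complex.imCLM.contDiff.comp (wC_smooth hΦ))

lemma D_wC (hΦ : SP Φ) (v p : ℝ × ℝ) :
    fderiv ℝ (wC κ Φ) p v = (1 + dz Φ p) * ((v.1 : ℂ) + v.2 * Complex.I) +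
      (κ + dzb Φ p) * conj ((v.1 : ℂ) + v.2 * Complex.I) := by
  have h1 : HasFDerivAt (fun p : ℝ × ℝ => (p.1 : ℂ))
      (Complex.ofRealCLM.comp (ContinuousLinearMap.fst ℝ ℝ ℝ)) p :=
    (Complex.ofRealCLM.comp (ContinuousLinearMap.fst ℝ ℝ ℝ)).hasFDerivAt
  have h2 : HasFDerivAt (fun p : ℝ × ℝ => (p.2 : ℂ))
      (Complex.ofRealCLM.comp (ContinuousLinearMap.snd ℝ ℝ ℝ)) p :=
    (Complex.ofRealCLM.comp (ContinuousLinearMap.snd ℝ ℝ ℝ)).hasFDerivAt
  have h3 : HasFDerivAt Φ (fderiv ℝ Φ p) p := (hΦ.differentiable p).hasFDerivAt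
  have h4 := (h1.add (h2.mul_const Complex.I))
  have h5 := (Complex.conjCLE : ℂ →L[ℝ] ℂ).hasFDerivAt.comp p h4
  have h6 := (h4.add (h5.const_mul (κ : ℂ))).add h3
  have h7 : HasFDerivAt (wC κ Φ) _ p := h6
  rw [h7.fderiv]
  have e : fderiv ℝ Φ p v = (v.1 : ℂ) * D1 Φ p + (v.2 : ℂ) * D2 Φ p := by
    have : v = v.1 • ((1 : ℝ), (0 : ℝ)) + v.2 • ((0 : ℝ), (1 : ℝ)) := by ext <;> simp
    conv_lhs => rw [this]
    rw [map_add, map_smul, map_smul]
    simp [D1, D2, D]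
  simp only [_root_.add_apply, ContinuousLinearMap.comp_apply, e, dz, dzb]
  simp
  linear_combination ((v.2 : ℂ) * D2 Φ p) * Complex.I_sq

lemma fderiv_wR (hΦ : SP Φ) (v p : ℝ × ℝ) :
    fderiv ℝ (wR κ Φ) p v = ((fderiv ℝ (wC κ Φ) p v).re, (fderiv ℝ (wC κ Φ) p v).im) := by
  have h1 : HasFDerivAt (wC κ Φ) (fderiv ℝ (wC κ Φ) p) p :=
    ((wC_smooth hΦ).differentiable (by simp) p).hasFDerivAt
  have h2 := Complex.reCLM.hasFDerivAt.comp p h1
  have h3 := Complex.imCLM.hasFDerivAt.comp p h1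
  have h4 : HasFDerivAt (wR κ Φ) _ p := h2.prodMk h3
  rw [h4.fderiv]
  rfl

variable (hΦ : SP Φ) (hκ : κ ^ 2 < 1) (hbel : ∀ p, (κ : ℂ) + dzb Φ p = g.mu p * (1 + dz Φ p))
  (hne : ∀ p, 1 + dz Φ p ≠ 0) (hsym : ∀ p, conj (Φ (sg p)) = Φ p)

include hne in
lemma hh_pos (p : ℝ × ℝ) : 0 < hh g Φ p := by
  have := g.den_pos p
  exact div_pos (Real.sqrt_pos.2 (by positivity)) (norm_pos_iff.2 (hne p))

include hΦ hbel hne in
lemma conf_source (p v : ℝ × ℝ) :
    g.norm p v = hh g Φ p * ‖fderiv ℝ (wC κ Φ) p v‖ := by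
  have h0 : 0 ≤ g.norm p v := Real.sqrt_nonneg _
  have h1 := hh_pos (g := g) hne p
  have h2 : 0 ≤ hh g Φ p * ‖fderiv ℝ (wC κ Φ) p v‖ := by positivity
  rw [← sq_eq_sq₀ h0 h2, g.norm_sq_eq, mul_pow, D_wC hΦ]
  unfold hh
  have hd := g.den_pos p
  have hn : ‖1 + dz Φ p‖ ≠ 0 := norm_ne_zero_iff.2 (hne p)
  rw [hbel, div_pow, Real.sq_sqrt (by positivity)]
  have e : (1 + dz Φ p) * ((v.1 : ℂ) + v.2 * Complex.I) + g.mu p * (1 + dz Φ p) *
      conj ((v.1 : ℂ) + v.2 * Complex.I) = (1 + dz Φ p) * (((v.1 : ℂ) + v.2 * Complex.I) +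
      g.mu p * conj ((v.1 : ℂ) + v.2 * Complex.I)) := by ring
  rw [e, norm_mul, mul_pow]
  field_simp

include hΦ hne in
lemma hh_smooth : ContDiff ℝ ∞ (hh g Φ) := by
  unfold hh
  refine ContDiff.div ?_ ?_ fun p => norm_ne_zero_iff.2 (hne p)
  · exact (g.den_smooth.div_const 4).sqrt fun p => by have := g.den_pos p; positivity
  · exact ((SP.const 1).add hΦ.hdz).smooth.norm ℝ hne

lemma norm_eq_sqrt (z : ℂ) : ‖z‖ = √(z.re ^ 2 + z.im ^ 2) := by
  rw [Complex.norm_eq_sqrt_sq_add_sq]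

include hΦ hbel hne in
lemma exists_equiv (p : ℝ × ℝ) : ∃ e : (ℝ × ℝ) ≃L[ℝ] (ℝ × ℝ),
    fderiv ℝ (wR κ Φ) p = (e : ℝ × ℝ →L[ℝ] ℝ × ℝ) := by
  have hinj : Function.Injective (fderiv ℝ (wR κ Φ) p) := by
    rw [injective_iff_map_eq_zero]
    intro v hv
    rw [fderiv_wR hΦ] at hv
    have h1 : fderiv ℝ (wC κ Φ) p v = 0 :=
      Complex.ext (congrArg Prod.fst hv) (congrArg Prod.snd hv)
    have h2 := conf_source hΦ hbel hne p v
    rw [h1, norm_zero, mul_zero] at h2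
    -- positive definiteness
    have h3 : g.norm p v ^ 2 = 0 := by rw [h2]; norm_num
    rw [g.norm_sq_eq] at h3
    have hd := g.den_pos p
    have h4 : ‖((v.1 : ℂ) + v.2 * Complex.I) + g.mu p * conj ((v.1 : ℂ) + v.2 * Complex.I)‖ = 0 := by
      rcases mul_eq_zero.1 h3 with h | h
      · exfalso; linarith
      · simpa using h
    have h5 : ‖((v.1 : ℂ) + v.2 * Complex.I)‖ = 0 := by
      by_contra hcon
      have hpos : 0 < ‖((v.1 : ℂ) + v.2 * Complex.I)‖ := lt_of_le_of_ne (norm_nonneg _) (Ne.symm hcon)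
      have h6 : ‖((v.1 : ℂ) + v.2 * Complex.I)‖ = ‖g.mu p * conj ((v.1 : ℂ) + v.2 * Complex.I)‖ := by
        rw [norm_eq_zero] at h4
        have : ((v.1 : ℂ) + v.2 * Complex.I) = -(g.mu p * conj ((v.1 : ℂ) + v.2 * Complex.I)) := by
          linear_combination h4
        conv_lhs => rw [this]
        rw [norm_neg]
      rw [norm_mul, RCLike.norm_conj] at h6
      have h7 := g.norm_mu_lt p
      nlinarith
    rw [norm_eq_zero] at h5
    have h8 := congrArg Complex.re h5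
    have h9 := congrArg Complex.im h5
    simp at h8 h9
    exact Prod.ext h8 h9
  let e0 : (ℝ × ℝ) ≃ₗ[ℝ] (ℝ × ℝ) :=
    LinearEquiv.ofInjectiveEndo (fderiv ℝ (wR κ Φ) p : ℝ × ℝ →ₗ[ℝ] ℝ × ℝ) hinj
  refine ⟨e0.toContinuousLinearEquiv, ?_⟩
  ext <;> rfl

include hΦ hκ in
lemma wR_proper (R : ℝ) : ∃ R' : ℝ, ∀ p, ‖wR κ Φ p‖ ≤ R → ‖p‖ ≤ R' := by
  obtain ⟨M, hM, hb⟩ := hΦ.bounded
  have h1 : |κ| < 1 := by
    rw [← sq_lt_one_iff_abs_lt_one]; exact hκ
  have h2 : 0 < 1 - |κ| := by linarith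
  have h3 := neg_abs_le κ
  have h4 := le_abs_self κ
  refine ⟨(R + M) / (1 - |κ|), fun p hp => ?_⟩
  have e1 : (wC κ Φ p).re = (1 + κ) * p.1 + (Φ p).re := by
    simp [wC]; ring
  have e2 : (wC κ Φ p).im = (1 - κ) * p.2 + (Φ p).im := by
    simp [wC]; ring
  have b1 : |(wC κ Φ p).re| ≤ R := (norm_fst_le (wR κ Φ p)).trans hp
  have b2 : |(wC κ Φ p).im| ≤ R := (norm_snd_le (wR κ Φ p)).trans hp
  have b3 := (Complex.abs_re_le_norm (Φ p)).trans (hb p)
  have b4 := (Complex.abs_im_le_norm (Φ p)).trans (hb p)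
  rw [e1] at b1
  rw [e2] at b2
  have c1 : (1 - |κ|) * |p.1| ≤ R + M := by
    have : |(1 + κ) * p.1| ≤ R + M := by
      calc |(1 + κ) * p.1| = |((1 + κ) * p.1 + (Φ p).re) - (Φ p).re| := by ring_nf
        _ ≤ |((1 + κ) * p.1 + (Φ p).re)| + |(Φ p).re| := abs_sub _ _
        _ ≤ R + M := add_le_add b1 b3
    rw [abs_mul, abs_of_pos (by linarith : 0 < 1 + κ)] at this
    have h5 : (1 - |κ|) * |p.1| ≤ (1 + κ) * |p.1| :=
      mul_le_mul_of_nonneg_right (by linarith) (abs_nonneg _)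
    linarith
  have c2 : (1 - |κ|) * |p.2| ≤ R + M := by
    have : |(1 - κ) * p.2| ≤ R + M := by
      calc |(1 - κ) * p.2| = |((1 - κ) * p.2 + (Φ p).im) - (Φ p).im| := by ring_nf
        _ ≤ |((1 - κ) * p.2 + (Φ p).im)| + |(Φ p).im| := abs_sub _ _
        _ ≤ R + M := add_le_add b2 b4
    rw [abs_mul, abs_of_pos (by linarith : 0 < 1 - κ)] at this
    have h5 : (1 - |κ|) * |p.2| ≤ (1 - κ) * |p.2| :=
      mul_le_mul_of_nonneg_right (by linarith) (abs_nonneg _)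
    linarith
  rw [Prod.norm_def, max_le_iff]
  constructor
  · rw [le_div_iff₀ h2, mul_comm]; exact c1
  · rw [le_div_iff₀ h2, mul_comm]; exact c2

include hΦ hκ hbel hne in
lemma wR_bijective : Function.Bijective (wR κ Φ) :=
  bijective_of_proper_local ((wR_smooth hΦ).of_le (by simp)) (exists_equiv hΦ hbel hne)
    (wR_proper hΦ hκ)

include hsym in
lemma wR_sg (p : ℝ × ℝ) : wR κ Φ (sg p) = ((wR κ Φ p).1 + (1 + κ) / 2, -(wR κ Φ p).2) := by
  have h1 : Φ (sg p) = conj (Φ p) := by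
    rw [← hsym p, Complex.conj_conj]
  unfold wR wC
  rw [h1]
  ext
  · simp [sg]; ring
  · simp [sg]; ring

include hΦ in
lemma wR_per2 (p : ℝ × ℝ) : wR κ Φ (p + (0, 1)) = ((wR κ Φ p).1, (wR κ Φ p).2 + (1 - κ)) := by
  unfold wR wC
  rw [hΦ.per2]
  ext
  · simp
  · simp; ring

include hΦ hsym in
lemma hh_sg (p : ℝ × ℝ) : hh g Φ (sg p) = hh g Φ p := by
  unfold hh
  have h1 : dz Φ p = conj (dz Φ (sg p)) := by
    rw [← dz_conj_sg hΦ]
    congr 1
    ext p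
    rw [hsym]
  have h2 : ‖1 + dz Φ (sg p)‖ = ‖1 + dz Φ p‖ := by
    rw [h1, ← RCLike.norm_conj (1 + dz Φ (sg p)), map_add, map_one]
  rw [h2, sg_eq, g.den_deck]

include hΦ in
lemma hh_per2 (p : ℝ × ℝ) : hh g Φ (p + (0, 1)) = hh g Φ p := by
  unfold hh
  rw [hΦ.hdz.per2, g.den_per2]

/-! ### Determinant and area -/

omit hΦ hκ hbel hne hsym in
lemma det_prod (A : ℝ × ℝ →L[ℝ] ℝ × ℝ) :
    A.det = (A (1, 0)).1 * (A (0, 1)).2 - (A (0, 1)).1 * (A (1, 0)).2 := by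
  rw [ContinuousLinearMap.det, ← LinearMap.det_toMatrix (Module.Basis.finTwoProd ℝ),
    Matrix.det_fin_two]
  simp [LinearMap.toMatrix_apply]

include hΦ hbel hne in
/-- `Δ = h² |det DT|` -/
lemma dens_eq (p : ℝ × ℝ) : g.dens p = |(fderiv ℝ (wR κ Φ) p).det| * hh g Φ p ^ 2 := by
  have h1 : (fderiv ℝ (wR κ Φ) p).det = ‖1 + dz Φ p‖ ^ 2 - ‖(κ : ℂ) + dzb Φ p‖ ^ 2 := by
    rw [det_prod, fderiv_wR hΦ, fderiv_wR hΦ, D_wC hΦ, D_wC hΦ]
    rw [← Complex.normSq_eq_norm_sq, ← Complex.normSq_eq_norm_sq]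
    simp only [Complex.normSq_apply, Complex.add_re, Complex.add_im, Complex.mul_re,
      Complex.mul_im, map_add, map_mul, Complex.conj_I, Complex.ofReal_re,
      Complex.ofReal_im, Complex.I_re, Complex.I_im, Complex.neg_re, Complex.neg_im, map_one,
      map_zero, Complex.zero_re, Complex.zero_im,
      Complex.one_re, Complex.one_im, Complex.ofReal_one, Complex.ofReal_zero]
    ring
  have hn : 0 < ‖1 + dz Φ p‖ := norm_pos_iff.2 (hne p)
  have hd := g.den_pos p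
  have hD := g.dens_pos p
  have h2 : ‖1 + dz Φ p‖ ^ 2 - ‖(κ : ℂ) + dzb Φ p‖ ^ 2 =
      ‖1 + dz Φ p‖ ^ 2 * (4 * g.dens p / g.den p) := by
    rw [hbel, norm_mul, mul_pow, g.normSq_mu]
    have : g.den p = g.E p + g.G p + 2 * g.dens p := rfl
    field_simp
    rw [this]
    ring
  rw [h1, h2, abs_of_pos (by positivity)]
  unfold hh
  rw [div_pow, Real.sq_sqrt (by positivity)]
  field_simp

end

/-! ### Integrals over fundamental domains -/

section Area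

variable {φ : ℝ × ℝ → ℝ} (hφ : Continuous φ)

/-- integral over a rectangle as an iterated integral -/
lemma integral_rect (hφ : Continuous φ) {a b c d : ℝ} (hab : a ≤ b) (hcd : c ≤ d) :
    ∫ q in Icc a b ×ˢ Icc c d, φ q = ∫ u in a..b, ∫ v in c..d, φ (u, v) := by
  rw [Measure.volume_eq_prod, setIntegral_prod]
  · rw [intervalIntegral.integral_of_le hab, ← integral_Icc_eq_integral_Ioc]
    refine integral_congr_ae (ae_of_all _ fun x => ?_)
    simp only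
    rw [intervalIntegral.integral_of_le hcd, ← integral_Icc_eq_integral_Ioc]
  · rw [← Measure.volume_eq_prod]
    exact hφ.continuousOn.integrableOn_compact (isCompact_Icc.prod isCompact_Icc)

lemma double_area (hφ : Continuous φ) {B L : ℝ} (hB : 0 < B) (hL : 0 < L)
    (h1 : ∀ u v, φ (u + B, -v) = φ (u, v)) (h2 : ∀ u v, φ (u, v + L) = φ (u, v)) :
    ∫ q in Icc (0 : ℝ) (2 * B) ×ˢ Icc (0 : ℝ) L, φ q =
      2 * ∫ q in Icc (0 : ℝ) B ×ˢ Icc (0 : ℝ) L, φ q := by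
  rw [integral_rect hφ (by linarith) hL.le, integral_rect hφ hB.le hL.le]
  have hper : ∀ u, ∫ v in (0 : ℝ)..L, φ (u + B, v) = ∫ v in (0 : ℝ)..L, φ (u, v) := by
    intro u
    have e1 : ∫ v in (0 : ℝ)..L, φ (u + B, v) = ∫ v in (0 : ℝ)..L, φ (u, -v) := by
      refine intervalIntegral.integral_congr fun v _ => ?_
      have := h1 u (-v)
      simp only [neg_neg] at this
      exact this
    rw [e1, intervalIntegral.integral_comp_neg (fun v => φ (u, v))]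
    have hp : Function.Periodic (fun v => φ (u, v)) L := fun v => h2 u v
    have := hp.intervalIntegral_add_eq (-L) 0
    simp only [neg_add_cancel, zero_add] at this
    rw [neg_zero]
    exact this
  have hc : Continuous fun u => ∫ v in (0 : ℝ)..L, φ (u, v) :=
    intervalIntegral.continuous_parametric_intervalIntegral_of_continuous' (by fun_prop) _ _
  rw [← intervalIntegral.integral_add_adjacent_intervals (b := B)
    (hc.intervalIntegrable _ _) (hc.intervalIntegrable _ _)]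
  have e2 : ∫ u in B..(2 * B), ∫ v in (0 : ℝ)..L, φ (u, v) =
      ∫ u in (0 : ℝ)..B, ∫ v in (0 : ℝ)..L, φ (u, v) := by
    have := intervalIntegral.integral_comp_add_right (a := 0) (b := B)
      (fun u => ∫ v in (0 : ℝ)..L, φ (u, v)) B
    simp only [zero_add] at this
    rw [show B + B = 2 * B by ring] at this
    rw [← this]
    exact intervalIntegral.integral_congr fun u _ => hper u
  rw [e2]
  ring

/-- the lattice generated by `(a, 0)` and `(0, b)` -/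
def lat (a b : ℝ) : AddSubgroup (ℝ × ℝ) where
  carrier := {p | ∃ m n : ℤ, p = (m * a, n * b)}
  zero_mem' := ⟨0, 0, by simp; rfl⟩
  add_mem' := by
    rintro _ _ ⟨m, n, rfl⟩ ⟨m', n', rfl⟩
    exact ⟨m + m', n + n', by ext <;> simp <;> ring⟩
  neg_mem' := by
    rintro _ ⟨m, n, rfl⟩
    exact ⟨-m, -n, by ext <;> simp⟩

instance (a b : ℝ) : Countable (lat a b) := by
  have : Function.Surjective (fun k : ℤ × ℤ => (⟨(k.1 * a, k.2 * b), k.1, k.2, rfl⟩ : lat a b)) := by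
    rintro ⟨_, m, n, rfl⟩
    exact ⟨(m, n), rfl⟩
  exact this.countable

lemma existsUnique_floor {a : ℝ} (ha : 0 < a) (x : ℝ) :
    ∃! m : ℤ, m * a + x ∈ Ico 0 a := by
  have h := existsUnique_add_zsmul_mem_Ico ha x 0
  simp only [zsmul_eq_mul, zero_add] at h
  obtain ⟨m, hm, huniq⟩ := h
  refine ⟨m, ?_, fun m' hm' => huniq m' ?_⟩
  · simp only
    rwa [add_comm]
  · simp only at hm' ⊢
    rwa [add_comm]

lemma lat_existsUnique {a b : ℝ} (ha : 0 < a) (hb : 0 < b) (x : ℝ × ℝ) :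
    ∃! l : lat a b, l +ᵥ x ∈ Ico 0 a ×ˢ Ico 0 b := by
  obtain ⟨m, hm, hm'⟩ := existsUnique_floor ha x.1
  obtain ⟨n, hn, hn'⟩ := existsUnique_floor hb x.2
  refine ⟨⟨(m * a, n * b), m, n, rfl⟩, ⟨hm, hn⟩, ?_⟩
  rintro ⟨_, m', n', rfl⟩ ⟨h1, h2⟩
  have e1 := hm' m' h1
  have e2 := hn' n' h2
  subst e1 e2
  rfl

end Area

end KB
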