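import Pool.Agent.Helper63.KB.Mu

/-!
# The normalised solution of the Beltrami equation, with the symmetry of the Klein bottle
-/

open Real MeasureTheory Set Filter
open scoped ContDiff ComplexConjugate Topology

namespace KB

/-- the glide reflection -/
noncomputable def sg (p : ℝ × ℝ) : ℝ × ℝ := (p.1 + 1 / 2, -p.2)

lemma sg_eq (p : ℝ × ℝ) : sg p = deck 1 0 p := (RMetric.deck_one_zero p).symm

lemma sg_sg (p : ℝ × ℝ) : sg (sg p) = p + (1, 0) := by
  ext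
  · simp [sg]; ring
  · simp [sg]

lemma sg_smooth : ContDiff ℝ ∞ sg :=
  (contDiff_fst.add contDiff_const).prodMk contDiff_snd.neg

/-- linear part of the glide reflection -/
noncomputable def sgL : ℝ × ℝ →L[ℝ] ℝ × ℝ :=
  (ContinuousLinearMap.fst ℝ ℝ ℝ).prod (-ContinuousLinearMap.snd ℝ ℝ ℝ)

lemma sg_hasFDerivAt (p : ℝ × ℝ) : HasFDerivAt sg sgL p := by
  have h1 : HasFDerivAt (fun p : ℝ × ℝ => p.1 + 1 / 2) (ContinuousLinearMap.fst ℝ ℝ ℝ) p :=
    hasFDerivAt_fst.add_const _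
  have h2 : HasFDerivAt (fun p : ℝ × ℝ => -p.2) (-ContinuousLinearMap.snd ℝ ℝ ℝ) p :=
    hasFDerivAt_snd.neg
  exact h1.prodMk h2

lemma SP.sg {f : ℝ × ℝ → ℂ} (hf : SP f) : SP (fun p => f (sg p)) := by
  refine ⟨hf.smooth.comp sg_smooth, fun p => ?_, fun p => ?_⟩
  · have : KB.sg (p + (1, 0)) = KB.sg p + (1, 0) := by
      ext
      · simp [KB.sg]; ring
      · simp [KB.sg]
    rw [this, hf.per1]
  · have : KB.sg p = KB.sg (p + (0, 1)) + (0, 1) := by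
      ext
      · simp [KB.sg]
      · simp [KB.sg]
    rw [this, hf.per2]

lemma D_sg {f : ℝ × ℝ → ℂ} (hf : SP f) (v p : ℝ × ℝ) :
    D v (fun p => f (sg p)) p = D (v.1, -v.2) f (sg p) := by
  have h1 : HasFDerivAt f (fderiv ℝ f (sg p)) (sg p) := (hf.differentiable _).hasFDerivAt
  have h2 := h1.comp p (sg_hasFDerivAt p)
  unfold D
  have h3 : HasFDerivAt (fun q => f (sg q)) _ p := h2
  rw [h3.fderiv]
  simp [sgL]

lemma D_neg_dir {f : ℝ × ℝ → ℂ} (v p : ℝ × ℝ) : D (-v) f p = - D v f p := by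
  simp [D]

lemma dz_conj_sg {f : ℝ × ℝ → ℂ} (hf : SP f) (p : ℝ × ℝ) :
    dz (fun p => conj (f (sg p))) p = conj (dz f (sg p)) := by
  simp only [dz, D1, D2]
  rw [D_conj _ hf.sg, D_conj _ hf.sg]
  simp only
  rw [D_sg hf, D_sg hf]
  have e : ((0 : ℝ), -(1 : ℝ)) = -((0 : ℝ), (1 : ℝ)) := by ext <;> simp
  simp only [neg_zero, e, D_neg_dir, map_mul, map_sub, map_neg, Complex.conj_I, map_div₀, map_one,
    map_ofNat]
  ring

lemma dzb_conj_sg {f : ℝ × ℝ → ℂ} (hf : SP f) (p : ℝ × ℝ) :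
    dzb (fun p => conj (f (sg p))) p = conj (dzb f (sg p)) := by
  simp only [dzb, D1, D2]
  rw [D_conj _ hf.sg, D_conj _ hf.sg]
  simp only
  rw [D_sg hf, D_sg hf]
  have e : ((0 : ℝ), -(1 : ℝ)) = -((0 : ℝ), (1 : ℝ)) := by ext <;> simp
  simp only [neg_zero, e, D_neg_dir, map_mul, map_add, map_neg, Complex.conj_I, map_div₀, map_one,
    map_ofNat]
  ring

lemma SP.const_of_dz_dzb {f : ℝ × ℝ → ℂ} (hf : SP f) (h : ∀ p, dzb f p = 0) (p : ℝ × ℝ) :
    f p = f 0 := hf.const_of_dzb h p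

theorem exists_w (g : RMetric) : ∃ (κ : ℝ) (Φ : ℝ × ℝ → ℂ), SP Φ ∧ κ ^ 2 < 1 ∧
    (∀ p, (κ : ℂ) + dzb Φ p = g.mu p * (1 + dz Φ p)) ∧ (∀ p, 1 + dz Φ p ≠ 0) ∧
    (∀ p, conj (Φ (sg p)) = Φ p) := by
  obtain ⟨k, hk0, hk, hb⟩ := g.exists_bound_mu
  obtain ⟨κ, Φ, hΦ, hbel, hne⟩ := beltrami g.mu_sp hk0 hk hb
  set Ψ := fun p => conj (Φ (sg p)) with hΨ
  have hΨsp : SP Ψ := hΦ.sg.star'
  have h1 : ∀ p, conj κ + dzb Ψ p = g.mu p * (1 + dz Ψ p) := by
    intro p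
    rw [hΨ, dzb_conj_sg hΦ, dz_conj_sg hΦ]
    have := congrArg conj (hbel (sg p))
    rw [map_add, map_mul, map_add, map_one, sg_eq, g.mu_deck, Complex.conj_conj] at this
    rw [sg_eq]
    exact this
  have hr : SP (fun p => Ψ p - Φ p) := hΨsp.sub hΦ
  have h2 : ∀ p, (conj κ - κ) + dzb (fun p => Ψ p - Φ p) p =
      g.mu p * dz (fun p => Ψ p - Φ p) p := by
    intro p
    rw [dzb_sub hΨsp hΦ, dz_sub hΨsp hΦ]
    simp only
    linear_combination h1 p - hbel p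
  obtain ⟨hκ, hdz⟩ := uniq hk0 hk hr g.mu_sp hb h2
  have hdzb : ∀ p, dzb (fun p => Ψ p - Φ p) p = 0 := by
    intro p
    have := h2 p
    rw [hκ, hdz, zero_add, mul_zero] at this
    exact this
  have hc := hr.const_of_dzb hdzb
  set c := Ψ 0 - Φ 0 with hcdef
  have hc' : ∀ p, conj (Φ (sg p)) = Φ p + c := by
    intro p
    have := hc p
    rw [← sub_eq_iff_eq_add']
    exact this
  -- c is purely imaginary
  have hcc : c + conj c = 0 := by
    have e1 := hc' (sg 0)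
    rw [sg_sg, hΦ.per1] at e1
    have e2 := congrArg conj (hc' 0)
    rw [Complex.conj_conj, map_add] at e2
    rw [e2] at e1
    linear_combination -e1
  have hκre : ((κ.re : ℝ) : ℂ) = κ := by
    have : conj κ = κ := by linear_combination hκ
    exact Complex.conj_eq_iff_real.1 this |>.elim fun r hr => by rw [hr]; simp
  have hΦ' : SP (fun p => Φ p + c / 2) := hΦ.add (SP.const _)
  refine ⟨κ.re, fun p => Φ p + c / 2, hΦ', ?_, ?_, ?_, ?_⟩
  · -- κ² < 1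
    have e1 : N (fun p => κ + dzb Φ p) ^ 2 = ‖κ‖ ^ 2 + N (dzb Φ) ^ 2 :=
      N_sq_const_add hΦ.hdzb.continuous (mean_dzb hΦ) κ
    have e2 : N (fun p => 1 + dz Φ p) ^ 2 = ‖(1 : ℂ)‖ ^ 2 + N (dz Φ) ^ 2 :=
      N_sq_const_add hΦ.hdz.continuous (mean_dz hΦ) 1
    have e3 : N (fun p => κ + dzb Φ p) ≤ k * N (fun p => 1 + dz Φ p) := by
      have : (fun p => κ + dzb Φ p) = fun p => g.mu p * (1 + dz Φ p) := funext hbel
      rw [this]
      exact N_mul_le ((SP.const 1).add hΦ.hdz).continuous g.mu_sp.continuous hk0 hb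
    have e4 : N (fun p => κ + dzb Φ p) ^ 2 ≤ (k * N (fun p => 1 + dz Φ p)) ^ 2 :=
      pow_le_pow_left₀ (N_nonneg _) e3 2
    rw [mul_pow, e1, e2, N_dz hΦ, norm_one, one_pow] at e4
    have e5 : κ.re ^ 2 = ‖κ‖ ^ 2 := by
      conv_rhs => rw [← hκre]
      rw [Complex.norm_real, Real.norm_eq_abs, sq_abs]
    rw [e5]
    have hk2 : k ^ 2 < 1 := by nlinarith
    nlinarith [sq_nonneg (N (dzb Φ))]
  · intro p
    rw [dzb_add hΦ (SP.const _), dz_add hΦ (SP.const _), dz_const, dzb_const, hκre]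
    simp only [add_zero]
    exact hbel p
  · intro p
    rw [dz_add hΦ (SP.const _), dz_const]
    simp only [add_zero]
    exact hne p
  · intro p
    simp only
    rw [map_add, hc', map_div₀, map_ofNat]
    linear_combination (1 / 2 : ℂ) * hcc

end KB
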